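import Mathlib

/-!
# MP_9ba03c_gt : interface between the combinatorial and the topological half

`A : Bool → Set (Set ℕ)` is a pair of almost disjoint families.  The space `X A` has as points
the finite subsets of `ℕ` and the members of `A`.
-/

namespace Pool.Agent.H44G

open Set Filter Topology

/-- The part of `Y` below `j`, as a finset. -/
noncomputable def cut (Y : Set ℕ) (j : ℕ) : Finset ℕ := by
  classical exact (Finset.range j).filter (· ∈ Y)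

theorem mem_cut {Y : Set ℕ} {j x : ℕ} : x ∈ cut Y j ↔ x < j ∧ x ∈ Y := by
  simp [cut]

/-- `f n → 0` along `n ∈ J`. -/
def Null (f : ℕ → ℝ) (J : Set ℕ) : Prop :=
  ∀ ε > 0, ∃ N, ∀ n ∈ J, N ≤ n → |f n| < ε

/-- Each `φ n : Finset ℕ → ℝ` is continuous (for the topology of `2^ω`). -/
def ContFin (φ : ℕ → Finset ℕ → ℝ) : Prop :=
  ∀ n (t : Finset ℕ), ∀ ε > 0, ∃ m, ∀ u : Finset ℕ, (∀ x ∈ u, m ≤ x) → |φ n (t ∪ u) - φ n t| ≤ ε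

/-- `lim_{n ∈ J} lim_j φ n (Y ∩ j) = 0`, without assuming that the inner limits exist. -/
def Small (φ : ℕ → Finset ℕ → ℝ) (J : Set ℕ) (Y : Set ℕ) : Prop :=
  ∀ ε > 0, ∃ N, ∀ n ∈ J, N ≤ n → ∃ j₀, ∀ j ≥ j₀, |φ n (cut Y j)| ≤ ε

/-- every point of `E` agrees below `m F` with some member of `F`. -/
def Cov (m : Finset (Finset ℕ) → ℕ) (E : Set (Set ℕ)) (F : Finset (Finset ℕ)) : Prop :=
  ∀ y ∈ E, ∃ s ∈ F, ∀ x < m F, (x ∈ y ↔ x ∈ s)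

/-- Concentration of all finite powers of `Fin ∪ A` on `Fin`. -/
def Conc (A : Set (Set ℕ)) : Prop :=
  ∀ m : Finset (Finset ℕ) → ℕ, ∃ b ⊆ A, b.Countable ∧
    ∀ E : Set (Set ℕ), E.Finite → (∀ y ∈ E, y.Finite ∨ y ∈ A \ b) → ∃ F, Cov m E F

/-- The trichotomy for sequences of functions. -/
def Task (A : Set (Set ℕ)) : Prop :=
  ∀ φ : ℕ → Finset ℕ → ℝ, ContFin φ → ∀ B ⊆ A, B.Countable → ∀ ψ : ℕ → Set ℕ → ℝ,
    (∃ J : Set ℕ, J.Infinite ∧ (∀ s, Null (fun n => φ n s) J) ∧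
      (∀ Y ∈ B, Null (fun n => ψ n Y) J) ∧ ∀ Y ∈ A \ B, Small φ J Y) ∨
    (∃ s : Finset ℕ, ∃ ε > 0, ∃ Y : ℕ → Set ℕ,
      (∀ k, Y k ∈ A \ B ∧ ∀ x < k, (x ∈ Y k ↔ x ∈ s)) ∧
      ∃ J : Set ℕ, J.Infinite ∧ Null (fun n => φ n s) J ∧
        ∀ k, ∃ N, ∀ n ∈ J, N ≤ n → ∃ j₀, ∀ j ≥ j₀, ε ≤ |φ n (cut (Y k) j)|) ∨
    (∃ B' ⊆ A, B'.Countable ∧ ¬ ∃ J : Set ℕ, J.Infinite ∧ (∀ s, Null (fun n => φ n s) J) ∧
      (∀ Y ∈ B, Null (fun n => ψ n Y) J) ∧ ∀ Y ∈ B' \ B, Small φ J Y)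

/-- The combinatorial object. -/
structure Fam (A : Bool → Set (Set ℕ)) : Prop where
  inf : ∀ i, ∀ Y ∈ A i, Y.Infinite
  ad : ∀ i i', ∀ Y ∈ A i, ∀ Y' ∈ A i', Y ≠ Y' → (Y ∩ Y').Finite
  big : (⋃ i, A i).Infinite
  mad : ∀ Z : Set ℕ, Z.Infinite → ∃ i, ∃ Y ∈ A i, (Y ∩ Z).Infinite
  conc : ∀ i, Conc (A i)
  task : ∀ i, Task (A i)

end Pool.Agent.H44G
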