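import Mathlib
import Pool.Agent.Lib.H44.Groth.Defs

/-!
# Fusion, Galvin's lemma and a dichotomy
-/

namespace Pool.Agent.H44G

open Set

/-- the part of `Z` strictly above `t`. -/
def above (t : Finset ℕ) (Z : Set ℕ) : Set ℕ := {z ∈ Z | ∀ x ∈ t, x < z}

theorem above_subset (t : Finset ℕ) (Z : Set ℕ) : above t Z ⊆ Z := fun _ h => h.1

theorem above_empty (Z : Set ℕ) : above ∅ Z = Z := by ext; simp [above]

theorem infinite_inter_Ioi {Z : Set ℕ} (hZ : Z.Infinite) (m : ℕ) : {z ∈ Z | m < z}.Infinite := by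
  by_contra h
  rw [Set.not_infinite] at h
  apply hZ
  apply (h.union (Set.finite_Iic m)).subset
  intro z hz
  rcases lt_or_ge m z with h1 | h1
  · exact Or.inl ⟨hz, h1⟩
  · exact Or.inr h1

theorem infinite_inter_Ici {Z : Set ℕ} (hZ : Z.Infinite) (m : ℕ) : {z ∈ Z | m ≤ z}.Infinite :=
  (infinite_inter_Ioi hZ m).mono fun _ h => ⟨h.1, h.2.le⟩

theorem above_infinite {t : Finset ℕ} {Z : Set ℕ} (hZ : Z.Infinite) : (above t Z).Infinite := by
  apply (infinite_inter_Ioi hZ (t.sup id)).mono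
  intro z hz
  exact ⟨hz.1, fun x hx => lt_of_le_of_lt (Finset.le_sup (f := id) hx) hz.2⟩

/-- Fusion. -/
theorem fusion (R : Finset ℕ → Set ℕ → Prop) (Z₀ : Set ℕ) (hZ : Z₀.Infinite)
    (hmono : ∀ t Z Z', Z' ⊆ Z → R t Z → R t Z')
    (hdense : ∀ t : Finset ℕ, ↑t ⊆ Z₀ → ∀ Z ⊆ Z₀, Z.Infinite → ∃ Z' ⊆ Z, Z'.Infinite ∧ R t Z') :
    ∃ Z ⊆ Z₀, Z.Infinite ∧ ∀ t : Finset ℕ, ↑t ⊆ Z → R t (above t Z) := by
  -- finitely many tasks at once
  have hfin : ∀ T : Finset (Finset ℕ), (∀ t ∈ T, (↑t : Set ℕ) ⊆ Z₀) → ∀ Z ⊆ Z₀, Z.Infinite →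
      ∃ Z' ⊆ Z, Z'.Infinite ∧ ∀ t ∈ T, R t Z' := by
    intro T
    induction T using Finset.induction_on with
    | empty => intro _ Z _ hZi; exact ⟨Z, subset_rfl, hZi, by simp⟩
    | insert a T ha ih =>
      intro hT Z hZ' hZi
      obtain ⟨Z1, h1, h1i, h1R⟩ := ih (fun t ht => hT t (Finset.mem_insert_of_mem ht)) Z hZ' hZi
      obtain ⟨Z2, h2, h2i, h2R⟩ := hdense a (hT a (Finset.mem_insert_self _ _)) Z1
        (h1.trans hZ') h1i
      refine ⟨Z2, h2.trans h1, h2i, ?_⟩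
      intro t ht
      rcases Finset.mem_insert.1 ht with rfl | ht
      · exact h2R
      · exact hmono t Z1 Z2 h2 (h1R t ht)
  let Inv : Finset ℕ × Set ℕ → Prop := fun p =>
    (↑p.1 : Set ℕ) ⊆ Z₀ ∧ p.2 ⊆ Z₀ ∧ p.2.Infinite ∧ (∀ t ⊆ p.1, R t p.2)
  let St := {p : Finset ℕ × Set ℕ // Inv p}
  have hstep : ∀ p : St, ∃ q : St, ∃ z ∈ p.1.2, q.1.1 = insert z p.1.1 ∧ q.1.2 ⊆ p.1.2 ∧
      ∀ x ∈ q.1.2, z < x := by
    rintro ⟨⟨F, Z⟩, hF, hZ', hZi, hR⟩
    obtain ⟨z, hz⟩ := hZi.nonempty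
    have hsub : (↑(insert z F) : Set ℕ) ⊆ Z₀ := by
      rw [Finset.coe_insert]
      exact Set.insert_subset (hZ' hz) hF
    obtain ⟨Z', h1, h1i, h1R⟩ := hfin (insert z F).powerset
      (fun t ht => (Finset.coe_subset.2 (Finset.mem_powerset.1 ht)).trans hsub)
      {x ∈ Z | z < x} (fun x hx => hZ' hx.1) (infinite_inter_Ioi hZi z)
    exact ⟨⟨(insert z F, Z'), hsub, fun x hx => hZ' (h1 hx).1, h1i,
      fun t ht => h1R t (Finset.mem_powerset.2 ht)⟩, z, hz, rfl, fun x hx => (h1 hx).1,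
      fun x hx => (h1 hx).2⟩
  choose nx z hz hins hsub hlt using hstep
  obtain ⟨Z1, h1, h1i, h1R⟩ := hdense ∅ (by simp) Z₀ subset_rfl hZ
  let p0 : St := ⟨(∅, Z1), by simp, h1, h1i, by
    intro t ht; rw [Finset.subset_empty.1 ht]; exact h1R⟩
  let f : ℕ → St := fun k => Nat.rec p0 (fun _ p => nx p) k
  have hf : ∀ k, f (k + 1) = nx (f k) := fun k => rfl
  have hZanti : Antitone fun k => (f k).1.2 := by
    apply antitone_nat_of_succ_le
    intro k
    rw [hf]; exact hsub (f k)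
  have hFmono : Monotone fun k => (f k).1.1 := by
    apply monotone_nat_of_le_succ
    intro k
    rw [hf, hins]; exact Finset.subset_insert _ _
  let w : ℕ → ℕ := fun k => z (f k)
  have hw : ∀ k, w k ∈ (f k).1.2 := fun k => hz (f k)
  have hwlt : ∀ k, ∀ x ∈ (f (k + 1)).1.2, w k < x := fun k x hx => hlt (f k) x hx
  have hwmono : StrictMono w := by
    apply strictMono_nat_of_lt_succ
    intro k
    exact hwlt k _ (hw (k + 1))
  have hwF : ∀ k, w k ∈ (f (k + 1)).1.1 := by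
    intro k; rw [hf, hins]; exact Finset.mem_insert_self _ _
  refine ⟨Set.range w, ?_, Set.infinite_range_of_injective hwmono.injective, ?_⟩
  · rintro _ ⟨k, rfl⟩
    exact (f k).2.2.1 (hw k)
  · intro t ht
    rcases t.eq_empty_or_nonempty with rfl | hne
    · rw [above_empty]
      apply hmono ∅ (f 0).1.2 _ _ ((f 0).2.2.2.2 ∅ (by simp))
      rintro _ ⟨k, rfl⟩
      exact hZanti (Nat.zero_le k) (hw k)
    · have hmax := t.max'_mem hne
      obtain ⟨k, hk⟩ := ht hmax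
      have htF : t ⊆ (f (k + 1)).1.1 := by
        intro x hx
        obtain ⟨i, hi⟩ := ht hx
        have hik : i ≤ k := by
          rw [← hwmono.le_iff_le, hk, hi]
          exact t.le_max' x hx
        rw [← hi]
        exact hFmono (Nat.succ_le_succ hik) (hwF i)
      apply hmono t (f (k + 1)).1.2 _ _ ((f (k + 1)).2.2.2.2 t htF)
      rintro x ⟨⟨i, hi⟩, hx⟩
      have : w k < w i := by rw [hk, hi]; exact hx _ hmax
      have hik : k < i := hwmono.lt_iff_lt.1 this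
      rw [← hi]
      exact hZanti hik (hw i)

theorem cut_union_above {Y : Set ℕ} {t : Finset ℕ} (j₀ : ℕ) (ht : t = cut Y j₀) (j : ℕ) :
    t ∪ cut {y ∈ Y | j₀ ≤ y} j = cut Y (max j j₀) := by
  subst ht
  ext x
  simp only [Finset.mem_union, mem_cut, mem_ofPred_eq]
  constructor
  · rintro (⟨h1, h2⟩ | ⟨h1, h2, h3⟩)
    · exact ⟨by omega, h2⟩
    · exact ⟨by omega, h2⟩
  · rintro ⟨h1, h2⟩
    by_cases hx : x < j₀
    · exact Or.inl ⟨hx, h2⟩
    · exact Or.inr ⟨by omega, h2, by omega⟩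

/-- Galvin's lemma (open sets are Ramsey). -/
theorem galvin (𝓕 : Finset ℕ → Prop) (Z₀ : Set ℕ) (hZ : Z₀.Infinite) :
    ∃ Z ⊆ Z₀, Z.Infinite ∧ ((∀ Y ⊆ Z, Y.Infinite → ∃ j, 𝓕 (cut Y j)) ∨
      (∀ t : Finset ℕ, ↑t ⊆ Z → ¬ 𝓕 t)) := by
  let Acc : Finset ℕ → Set ℕ → Prop := fun t Z =>
    ∀ Y ⊆ Z, Y.Infinite → (∀ y ∈ Y, ∀ x ∈ t, x < y) → ∃ j, 𝓕 (t ∪ cut Y j)
  let Rej : Finset ℕ → Set ℕ → Prop := fun t Z => ∀ Z' ⊆ Z, Z'.Infinite → ¬ Acc t Z'
  have accMono : ∀ t Z Z', Z' ⊆ Z → Acc t Z → Acc t Z' :=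
    fun t Z Z' h hA Y hY => hA Y (hY.trans h)
  have rejMono : ∀ t Z Z', Z' ⊆ Z → Rej t Z → Rej t Z' :=
    fun t Z Z' h hA Y hY => hA Y (hY.trans h)
  obtain ⟨Z1, h1, h1i, h1R⟩ := fusion (fun t Z => Acc t Z ∨ Rej t Z) Z₀ hZ
    (fun t Z Z' h hR => hR.imp (accMono t Z Z' h) (rejMono t Z Z' h))
    (by
      intro t _ Z _ hZi
      by_cases hr : Rej t Z
      · exact ⟨Z, subset_rfl, hZi, Or.inr hr⟩
      · simp only [Rej, not_forall, not_not] at hr
        obtain ⟨Z', h1, h2, h3⟩ := hr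
        exact ⟨Z', h1, h2, Or.inl h3⟩)
  have hacc : ∀ t, Acc t (above t Z1) → Acc t Z1 := by
    intro t h Y hY hYi hYt
    exact h Y (fun y hy => ⟨hY hy, hYt y hy⟩) hYi hYt
  have hrej : ∀ t, Rej t (above t Z1) → Rej t Z1 := by
    intro t h Z' hZ' hZi hA
    exact h (above t Z') (fun y hy => ⟨hZ' hy.1, hy.2⟩) (above_infinite hZi)
      (accMono t Z' _ (above_subset _ _) hA)
  have hdec : ∀ t : Finset ℕ, ↑t ⊆ Z1 → Acc t Z1 ∨ Rej t Z1 := by
    intro t ht
    rcases h1R t ht with h | h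
    · exact Or.inl (hacc t h)
    · exact Or.inr (hrej t h)
  rcases hdec ∅ (by simp) with h0 | h0
  · refine ⟨Z1, h1, h1i, Or.inl ?_⟩
    intro Y hY hYi
    obtain ⟨j, hj⟩ := h0 Y hY hYi (by simp)
    exact ⟨j, by simpa using hj⟩
  · obtain ⟨Z2, h2, h2i, h2R⟩ := fusion
      (fun t Z => Rej t Z1 → ∀ z ∈ Z, (∀ x ∈ t, x < z) → Rej (insert z t) Z1) Z1 h1i
      (fun t Z Z' h hR hr z hz => hR hr z (h hz))
      (by
        intro t ht Z hZ' hZi
        by_cases hr : Rej t Z1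
        swap
        · exact ⟨Z, subset_rfl, hZi, fun h => absurd h hr⟩
        let B : Set ℕ := {z ∈ Z | (∀ x ∈ t, x < z) ∧ ¬ Rej (insert z t) Z1}
        by_cases hB : B.Finite
        · refine ⟨Z \ B, sdiff_subset, hZi.sdiff hB, ?_⟩
          intro _ z hz hzt
          by_contra hc
          exact hz.2 ⟨hz.1, hzt, hc⟩
        · exfalso
          apply hr B (fun z hz => hZ' hz.1) hB
          intro Y hY hYi hYt
          have hne : Y.Nonempty := hYi.nonempty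
          let z := sInf Y
          have hzY : z ∈ Y := Nat.sInf_mem hne
          have hzB := hY hzY
          have hmin : ∀ y ∈ Y, z ≤ y := fun y hy => Nat.sInf_le hy
          have hA : Acc (insert z t) Z1 := by
            rcases hdec (insert z t) (by
              rw [Finset.coe_insert]
              exact Set.insert_subset (hZ' hzB.1) ht) with h | h
            · exact h
            · exact absurd h hzB.2.2
          obtain ⟨j, hj⟩ := hA {y ∈ Y | z < y} (fun y hy => hZ' (hY hy.1).1)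
            (infinite_inter_Ioi hYi z) (by
              intro y hy x hx
              rcases Finset.mem_insert.1 hx with rfl | hx
              · exact hy.2
              · exact hYt y hy.1 x hx)
          refine ⟨max j (z + 1), ?_⟩
          convert hj using 1
          ext x
          simp only [Finset.mem_union, mem_cut, Finset.mem_insert, mem_ofPred_eq]
          constructor
          · rintro (h | ⟨h1, h2⟩)
            · exact Or.inl (Or.inr h)
            · rcases (hmin x h2).eq_or_lt with h3 | h3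
              · exact Or.inl (Or.inl h3.symm)
              · exact Or.inr ⟨by omega, h2, h3⟩
          · rintro ((h | h) | ⟨h1, h2, h3⟩)
            · rw [h]
              exact Or.inr ⟨by omega, hzY⟩
            · exact Or.inl h
            · exact Or.inr ⟨by omega, h2⟩)
    refine ⟨Z2, h2.trans h1, h2i, Or.inr ?_⟩
    have hall : ∀ t : Finset ℕ, ↑t ⊆ Z2 → Rej t Z1 := by
      intro t
      induction t using Finset.induction_on_max with
      | empty => intro _; exact h0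
      | insert a s hs ih =>
        intro ht
        rw [Finset.coe_insert, Set.insert_subset_iff] at ht
        exact h2R s ht.2 (ih ht.2) a ⟨ht.1, hs⟩ hs
    intro t ht hF
    apply hall t ht Z1 subset_rfl h1i
    intro Y _ _ _
    refine ⟨0, ?_⟩
    convert hF using 1
    ext x
    simp [mem_cut]

/-- The dichotomy for a decreasing sequence of open sets. -/
theorem dichotomy (𝓕 : ℕ → Finset ℕ → Prop) (hanti : ∀ m m' t, m ≤ m' → 𝓕 m' t → 𝓕 m t)
    (Z₀ : Set ℕ) (hZ : Z₀.Infinite) :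
    (∃ Z ⊆ Z₀, Z.Infinite ∧ ∀ Y ⊆ Z, Y.Infinite → ∀ m, ∃ j, 𝓕 m (cut Y j)) ∨
    (∃ t : Finset ℕ, ↑t ⊆ Z₀ ∧ ∃ Z ⊆ above t Z₀, Z.Infinite ∧ ∃ m, ∀ t' : Finset ℕ, ↑t' ⊆ Z →
      ¬ 𝓕 m (t ∪ t')) := by
  by_contra hcon
  push Not at hcon
  obtain ⟨hbad, hgood⟩ := hcon
  obtain ⟨Z, hZ1, hZi, hZR⟩ := fusion (fun t Z =>
      ∀ Y ⊆ Z, Y.Infinite → (∀ y ∈ Y, ∀ x ∈ t, x < y) → ∃ j, 𝓕 (t.sup id) (t ∪ cut Y j)) Z₀ hZ
    (fun t Z Z' h hR Y hY => hR Y (hY.trans h))
    (by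
      intro t ht Z hZ' hZi
      obtain ⟨Z1, h1, h1i, h1R⟩ := galvin (fun t' => 𝓕 (t.sup id) (t ∪ t')) (above t Z)
        (above_infinite hZi)
      refine ⟨Z1, h1.trans (above_subset _ _), h1i, ?_⟩
      rcases h1R with h | h
      · intro Y hY hYi _
        exact h Y hY hYi
      · exfalso
        obtain ⟨t', ht', ht''⟩ := hgood t ht Z1 (fun x hx => ⟨hZ' (h1 hx).1, (h1 hx).2⟩) h1i
          (t.sup id)
        exact h t' ht' ht'')
  obtain ⟨Y, hY, hYi, m, hm⟩ := hbad Z hZ1 hZi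
  obtain ⟨y, hy, hmy⟩ := hYi.exists_gt m
  let t := cut Y (y + 1)
  have ht : (↑t : Set ℕ) ⊆ Z := by
    intro x hx
    exact hY (mem_cut.1 hx).2
  have hsup : m ≤ t.sup id := by
    have : y ∈ t := mem_cut.2 ⟨by omega, hy⟩
    exact hmy.le.trans (Finset.le_sup (f := id) this)
  obtain ⟨j, hj⟩ := hZR t ht {x ∈ Y | y + 1 ≤ x} (by
      intro x hx
      refine ⟨hY hx.1, ?_⟩
      intro x' hx'
      have := (mem_cut.1 hx').1
      have := hx.2
      omega) (infinite_inter_Ici hYi _) (by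
      intro x hx x' hx'
      have := (mem_cut.1 hx').1
      have := hx.2
      omega)
  rw [cut_union_above (y + 1) rfl] at hj
  exact hm _ (hanti _ _ _ hsup hj)

end Pool.Agent.H44G
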