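import Mathlib
import Pool.Agent.Lib.H44.Groth.Ramsey

/-!
# Fusible sets, states and their extension
-/

namespace Pool.Agent.H44G

open Set

/-- `Z` is almost disjoint from all members of `𝓐`. -/
def Perp (Z : Set ℕ) (𝓐 : Set (Set ℕ)) : Prop := ∀ Y ∈ 𝓐, (Z ∩ Y).Finite

theorem Perp.mono {Z Z' : Set ℕ} {𝓐 𝓐' : Set (Set ℕ)} (h : Perp Z 𝓐) (hZ : Z' ⊆ Z)
    (hA : 𝓐' ⊆ 𝓐) : Perp Z' 𝓐' :=
  fun Y hY => (h Y (hA hY)).subset (inter_subset_inter_left _ hZ)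

/-- Fusible families of sets (they contain a dense open set of the Mathias conditions
with infinite part orthogonal to `𝓐`). -/
def Fus (𝓐 : Set (Set ℕ)) (T : Set (Set ℕ)) : Prop :=
  ∀ s : Finset ℕ, ∀ Z : Set ℕ, Z.Infinite → Perp Z 𝓐 → ∃ t : Finset ℕ, ↑t ⊆ Z ∧
    ∃ Z' ⊆ Z, Z'.Infinite ∧ ∀ Y' ⊆ Z', Y'.Infinite → (↑s ∪ ↑t ∪ Y' : Set ℕ) ∈ T

theorem Fus.mono {𝓐 𝓐' : Set (Set ℕ)} {T : Set (Set ℕ)} (h : Fus 𝓐 T) (hA : 𝓐 ⊆ 𝓐') :
    Fus 𝓐' T :=
  fun s Z hZ hp => h s Z hZ (hp.mono subset_rfl hA)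

theorem fus_open (𝓐 : Set (Set ℕ)) (T : Set (Set ℕ))
    (h : ∀ s : Finset ℕ, ∃ m, ∀ Y : Set ℕ, (∀ x < m, (x ∈ Y ↔ x ∈ s)) → Y ∈ T) : Fus 𝓐 T := by
  intro s Z hZ _
  obtain ⟨m, hm⟩ := h s
  refine ⟨∅, by simp, {z ∈ Z | m ≤ z}, fun z hz => hz.1, infinite_inter_Ici hZ m, ?_⟩
  intro Y' hY' _
  apply hm
  intro x hx
  constructor
  · rintro ((h1 | h1) | h1)
    · exact h1
    · simp at h1
    · have := (hY' h1).2
      omega
  · intro h1
    exact Or.inl (Or.inl h1)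

/-- sets with gaps prescribed by `b`. -/
def Thin (b : Finset ℕ → ℕ) : Set (Set ℕ) :=
  {Y | ∃ j₀, ∀ j ≥ j₀, ∀ y ∈ Y, j ≤ y → b (cut Y j) ≤ y}

theorem cut_union_of_le {s : Finset ℕ} {W : Set ℕ} {j : ℕ} (hj : ∀ x ∈ s, x < j) :
    cut (↑s ∪ W) j = s ∪ cut W j := by
  ext x
  simp only [mem_cut, Finset.mem_union, Set.mem_union, Finset.mem_coe]
  constructor
  · rintro ⟨h1, h2 | h2⟩
    · exact Or.inl h2
    · exact Or.inr ⟨h1, h2⟩
  · rintro (h1 | ⟨h1, h2⟩)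
    · exact ⟨hj x h1, Or.inl h1⟩
    · exact ⟨h1, Or.inr h2⟩

theorem exists_bd (s : Finset ℕ) : ∃ M, ∀ x ∈ s, x < M :=
  ⟨s.sup id + 1, fun _ hx => Nat.lt_succ_of_le (Finset.le_sup (f := id) hx)⟩

theorem fus_thin (𝓐 : Set (Set ℕ)) (b : Finset ℕ → ℕ) : Fus 𝓐 (Thin b) := by
  intro s Z hZ _
  obtain ⟨Z1, h1, h1i, h1R⟩ := fusion (fun t Z => ∀ z ∈ Z, b (s ∪ t) ≤ z) (above s Z)
    (above_infinite hZ) (fun t Z Z' h hR z hz => hR z (h hz))
    (by
      intro t _ Z' _ hZi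
      exact ⟨{z ∈ Z' | b (s ∪ t) ≤ z}, fun z hz => hz.1, infinite_inter_Ici hZi _,
        fun z hz => hz.2⟩)
  refine ⟨∅, by simp, Z1, h1.trans (above_subset _ _), h1i, ?_⟩
  intro Y' hY' _
  rw [Finset.coe_empty, union_empty]
  obtain ⟨M, hM⟩ := exists_bd s
  refine ⟨M, ?_⟩
  intro j hj y hy hjy
  rw [cut_union_of_le (fun x hx => (hM x hx).trans_le hj)]
  have hyY : y ∈ Y' := by
    rcases hy with hy | hy
    · have := hM y hy
      omega
    · exact hy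
  apply h1R (cut Y' j) (fun x hx => hY' (mem_cut.1 hx).2) y
  exact ⟨hY' hyY, fun x hx => (mem_cut.1 hx).1.trans_le hjy⟩

/-- Fusion of countably many fusible families. -/
theorem fusB_nat (𝓐 : Set (Set ℕ)) (T : ℕ → Set (Set ℕ)) (hT : ∀ k, Fus 𝓐 (T k))
    (s : Finset ℕ) (Z : Set ℕ) (hZ : Z.Infinite) (hp : Perp Z 𝓐) :
    ∃ W ⊆ Z, W.Infinite ∧ ∀ k, (↑s ∪ W : Set ℕ) ∈ T k := by
  let P := {p : Finset ℕ × Set ℕ // p.2 ⊆ Z ∧ p.2.Infinite}
  have hstep : ∀ (k : ℕ) (p : P), ∃ q : P, ∃ t : Finset ℕ, ∃ z : ℕ, ↑t ⊆ p.1.2 ∧ z ∈ p.1.2 ∧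
      q.1.1 = insert z (p.1.1 ∪ t) ∧ q.1.2 ⊆ p.1.2 ∧ (∀ x ∈ q.1.2, z < x) ∧
      ∀ Y' ⊆ insert z q.1.2, Y'.Infinite → (↑p.1.1 ∪ ↑t ∪ Y' : Set ℕ) ∈ T k := by
    rintro k ⟨⟨s', Z'⟩, hZ', hZi⟩
    obtain ⟨t, ht, Z1, h1, h1i, h1T⟩ := hT k s' Z' hZi (hp.mono hZ' subset_rfl)
    obtain ⟨z, hz⟩ := h1i.nonempty
    refine ⟨⟨(insert z (s' ∪ t), {x ∈ Z1 | z < x}), fun x hx => hZ' (h1 hx.1),
      infinite_inter_Ioi h1i z⟩, t, z, ht, h1 hz, rfl, fun x hx => h1 hx.1, fun x hx => hx.2, ?_⟩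
    intro Y' hY' hYi
    apply h1T Y' _ hYi
    intro y hy
    rcases hY' hy with rfl | hy
    · exact hz
    · exact hy.1
  choose nx t z ht hz hins hsub hlt hTT using hstep
  let p0 : P := ⟨(s, Z), subset_rfl, hZ⟩
  let f : ℕ → P := fun k => Nat.rec p0 (fun k p => nx k p) k
  have hf : ∀ k, f (k + 1) = nx k (f k) := fun k => rfl
  have hZanti : Antitone fun k => (f k).1.2 := by
    apply antitone_nat_of_succ_le
    intro k
    rw [hf]; exact hsub k (f k)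
  have hFmono : Monotone fun k => (f k).1.1 := by
    apply monotone_nat_of_le_succ
    intro k
    rw [hf, hins]; exact (Finset.subset_union_left).trans (Finset.subset_insert _ _)
  let w : ℕ → ℕ := fun k => z k (f k)
  have hw : ∀ k, w k ∈ (f k).1.2 := fun k => hz k (f k)
  have hwlt : ∀ k, ∀ x ∈ (f (k + 1)).1.2, w k < x := fun k x hx => hlt k (f k) x hx
  have hwmono : StrictMono w := by
    apply strictMono_nat_of_lt_succ
    intro k
    exact hwlt k _ (hw (k + 1))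
  let W : Set ℕ := ⋃ k, insert (w k) (↑(t k (f k)) : Set ℕ)
  have hwW : ∀ k, w k ∈ W := fun k => mem_iUnion.2 ⟨k, mem_insert _ _⟩
  have hFsub : ∀ k, (↑(f k).1.1 : Set ℕ) ⊆ ↑s ∪ W := by
    intro k
    induction k with
    | zero => exact subset_union_left
    | succ k ih =>
      rw [hf, hins, Finset.coe_insert, Finset.coe_union]
      refine insert_subset_iff.2 ⟨mem_union_right _ (hwW k), ?_⟩
      apply union_subset ih
      intro x hx
      exact Or.inr (mem_iUnion.2 ⟨k, Or.inr hx⟩)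
  refine ⟨W, ?_, ?_, ?_⟩
  · apply iUnion_subset
    intro k
    apply insert_subset
    · exact (f k).2.1 (hw k)
    · exact (ht k (f k)).trans (f k).2.1
  · apply (Set.infinite_range_of_injective hwmono.injective).mono
    rintro _ ⟨k, rfl⟩
    exact hwW k
  · intro k
    have := hTT k (f k) (W ∩ insert (w k) (f (k + 1)).1.2) inter_subset_right (by
      apply ((Set.infinite_range_of_injective
        (hwmono.comp (strictMono_id.add_const k)).injective)).mono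
      rintro _ ⟨l, rfl⟩
      refine ⟨hwW _, ?_⟩
      simp only [Function.comp, id]
      rcases Nat.eq_zero_or_pos l with rfl | hl
      · left; rw [Nat.zero_add]
      · right
        exact hZanti (show k + 1 ≤ l + k by omega) (hw (l + k)))
    convert this using 1
    apply Subset.antisymm
    · rintro x (hx | hx)
      · exact Or.inl (Or.inl (hFmono (Nat.zero_le k) hx))
      · obtain ⟨l, hl⟩ := mem_iUnion.1 hx
        rcases lt_trichotomy l k with hlk | rfl | hlk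
        · left; left
          apply hFmono (show l + 1 ≤ k from hlk)
          show x ∈ (f (l + 1)).1.1
          rw [hf, hins, Finset.mem_insert, Finset.mem_union]
          rcases hl with hl | hl
          · exact Or.inl hl
          · exact Or.inr (Or.inr hl)
        · rcases hl with hl | hl
          · exact Or.inr ⟨hx, Or.inl hl⟩
          · exact Or.inl (Or.inr hl)
        · right
          refine ⟨hx, Or.inr ?_⟩
          apply hZanti (show k + 1 ≤ l from hlk)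
          rcases hl with hl | hl
          · rw [hl]; exact hw l
          · exact ht l (f l) hl
    · apply union_subset (union_subset (hFsub k) _) _
      · intro x hx
        exact Or.inr (mem_iUnion.2 ⟨k, Or.inr hx⟩)
      · intro x hx
        exact Or.inr hx.1

theorem fusB (𝓐 : Set (Set ℕ)) (𝒯 : Set (Set (Set ℕ))) (hc : 𝒯.Countable)
    (hT : ∀ T ∈ 𝒯, Fus 𝓐 T) (s : Finset ℕ) (Z : Set ℕ) (hZ : Z.Infinite) (hp : Perp Z 𝓐) :
    ∃ W ⊆ Z, W.Infinite ∧ ∀ T ∈ 𝒯, (↑s ∪ W : Set ℕ) ∈ T := by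
  rcases 𝒯.eq_empty_or_nonempty with rfl | hne
  · exact ⟨Z, subset_rfl, hZ, by simp⟩
  · obtain ⟨f, rfl⟩ := hc.exists_eq_range hne
    obtain ⟨W, h1, h2, h3⟩ := fusB_nat 𝓐 f (fun k => hT _ (mem_range_self k)) s Z hZ hp
    refine ⟨W, h1, h2, ?_⟩
    rintro _ ⟨k, rfl⟩
    exact h3 k

/-! ### States -/

/-- The `ε`-part of a promise. -/
def KeptE (φ : ℕ → Finset ℕ → ℝ) (J : Set ℕ) (ε : ℝ) : Set (Set ℕ) :=
  {Y | ∃ N, ∀ n ∈ J, N ≤ n → ∀ j, |φ n (cut Y j)| < ε}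

theorem KeptE_mono {φ : ℕ → Finset ℕ → ℝ} {J : Set ℕ} {ε ε' : ℝ} (h : ε ≤ ε') :
    KeptE φ J ε ⊆ KeptE φ J ε' := by
  rintro Y ⟨N, hN⟩
  exact ⟨N, fun n hn hNn j => (hN n hn hNn j).trans_le h⟩

/-- concentration condition `g = (m, b)` for the family `A`. -/
def GoodG (g : (Finset (Finset ℕ) → ℕ) × Set (Set ℕ)) (A : Set (Set ℕ)) : Prop :=
  ∀ E : Set (Set ℕ), E.Finite → (∀ y ∈ E, y.Finite ∨ y ∈ A \ g.2) → ∃ F, Cov g.1 E F

theorem GoodG.mono {g : (Finset (Finset ℕ) → ℕ) × Set (Set ℕ)} {A A' : Set (Set ℕ)}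
    (h : GoodG g A) (hA : A' ⊆ A) : GoodG g A' := by
  intro E hE hE'
  apply h E hE
  intro y hy
  rcases hE' y hy with h1 | h1
  · exact Or.inl h1
  · exact Or.inr ⟨hA h1.1, h1.2⟩

/-- States of the construction. -/
structure St where
  A : Bool → Set (Set ℕ)
  G : Bool → Set ((Finset (Finset ℕ) → ℕ) × Set (Set ℕ))
  Q : Bool → Set ((ℕ → Finset ℕ → ℝ) × Set ℕ × Set (Set ℕ))
  cA : ∀ i, (A i).Countable
  cG : ∀ i, (G i).Countable
  cQ : ∀ i, (Q i).Countable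
  inf : ∀ i, ∀ Y ∈ A i, Y.Infinite
  ad : ∀ i i', ∀ Y ∈ A i, ∀ Y' ∈ A i', Y ≠ Y' → (Y ∩ Y').Finite
  hG : ∀ i, ∀ g ∈ G i, GoodG g (A i)
  hQ : ∀ i, ∀ q ∈ Q i, ∀ Y ∈ A i \ q.2.2, ∀ ε > 0, Y ∈ KeptE q.1 q.2.1 ε
  hQ' : ∀ i, ∀ q ∈ Q i, ∀ ε > 0, Fus (⋃ i, A i) (KeptE q.1 q.2.1 ε)

namespace St

/-- all sets of the state -/
def all (p : St) : Set (Set ℕ) := ⋃ i, p.A i

theorem A_sub_all (p : St) (i : Bool) : p.A i ⊆ p.all := subset_iUnion _ i

instance : Preorder St where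
  le p q := ∀ i, p.A i ⊆ q.A i ∧ p.G i ⊆ q.G i ∧ p.Q i ⊆ q.Q i
  le_refl p i := ⟨subset_rfl, subset_rfl, subset_rfl⟩
  le_trans p q r h1 h2 i := ⟨(h1 i).1.trans (h2 i).1, (h1 i).2.1.trans (h2 i).2.1,
    (h1 i).2.2.trans (h2 i).2.2⟩

theorem le_def {p q : St} : p ≤ q ↔ ∀ i, p.A i ⊆ q.A i ∧ p.G i ⊆ q.G i ∧ p.Q i ⊆ q.Q i :=
  Iff.rfl

theorem all_mono {p q : St} (h : p ≤ q) : p.all ⊆ q.all :=
  iUnion_mono fun i => (h i).1

/-- `F` can be added to the state on both sides. -/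
structure OK (p : St) (F : Set (Set ℕ)) : Prop where
  cF : F.Countable
  inf : ∀ Y ∈ F, Y.Infinite
  adp : ∀ Y ∈ F, Perp Y p.all
  ad : ∀ Y ∈ F, ∀ Y' ∈ F, Y ≠ Y' → (Y ∩ Y').Finite
  hG : ∀ i, ∀ g ∈ p.G i, GoodG g (p.A i ∪ F)
  hQ : ∀ i, ∀ q ∈ p.Q i, ∀ Y ∈ F, ∀ ε > 0, Y ∈ KeptE q.1 q.2.1 ε

theorem ok_empty (p : St) : OK p ∅ where
  cF := countable_empty
  inf := by simp
  adp := by simp
  ad := by simp
  hG i g hg := by rw [union_empty]; exact p.hG i g hg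
  hQ := by simp

theorem OK.mono {p : St} {F F' : Set (Set ℕ)} (h : OK p F) (hF : F' ⊆ F) : OK p F' where
  cF := h.cF.mono hF
  inf Y hY := h.inf Y (hF hY)
  adp Y hY := h.adp Y (hF hY)
  ad Y hY Y' hY' := h.ad Y (hF hY) Y' (hF hY')
  hG i g hg := (h.hG i g hg).mono (union_subset_union_right _ hF)
  hQ i q hq Y hY := h.hQ i q hq Y (hF hY)

theorem ok_iUnion {p : St} {F : ℕ → Set (Set ℕ)} (h : ∀ k, OK p (F k)) (hF : Monotone F) :
    OK p (⋃ k, F k) where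
  cF := countable_iUnion fun k => (h k).cF
  inf Y hY := by
    obtain ⟨k, hk⟩ := mem_iUnion.1 hY
    exact (h k).inf Y hk
  adp Y hY := by
    obtain ⟨k, hk⟩ := mem_iUnion.1 hY
    exact (h k).adp Y hk
  ad Y hY Y' hY' := by
    obtain ⟨k, hk⟩ := mem_iUnion.1 hY
    obtain ⟨l, hl⟩ := mem_iUnion.1 hY'
    exact (h (max k l)).ad Y (hF (le_max_left k l) hk) Y' (hF (le_max_right k l) hl)
  hG i g hg := by
    intro E hE hE'
    have : ∃ k, ∀ y ∈ E, y.Finite ∨ y ∈ (p.A i ∪ F k) \ g.2 := by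
      clear h
      induction E, hE using Set.Finite.induction_on with
      | empty => exact ⟨0, by simp⟩
      | @insert a E ha hEf ih =>
        obtain ⟨k, hk⟩ := ih (fun y hy => hE' y (mem_insert_of_mem _ hy))
        have hup : ∀ l ≥ k, ∀ y ∈ E, y.Finite ∨ y ∈ (p.A i ∪ F l) \ g.2 := by
          intro l hl y hy
          rcases hk y hy with h1 | h1
          · exact Or.inl h1
          · exact Or.inr ⟨union_subset_union_right _ (hF hl) h1.1, h1.2⟩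
        rcases hE' a (mem_insert _ _) with h1 | ⟨h1 | h1, h2⟩
        · exact ⟨k, fun y hy => (mem_insert_iff.1 hy).elim (fun h => h ▸ Or.inl h1) (hk y)⟩
        · exact ⟨k, fun y hy => (mem_insert_iff.1 hy).elim
            (fun h => h ▸ Or.inr ⟨Or.inl h1, h2⟩) (hk y)⟩
        · obtain ⟨l, hl⟩ := mem_iUnion.1 h1
          refine ⟨max k l, fun y hy => (mem_insert_iff.1 hy).elim
            (fun h => h ▸ Or.inr ⟨Or.inr (hF (le_max_right k l) hl), h2⟩)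
            (hup _ (le_max_left k l) y)⟩
    obtain ⟨k, hk⟩ := this
    exact (h k).hG i g hg E hE hk
  hQ i q hq Y hY := by
    obtain ⟨k, hk⟩ := mem_iUnion.1 hY
    exact (h k).hQ i q hq Y hk

/-- Extension lemma. -/
theorem OK.extend {p : St} {F : Set (Set ℕ)} (h : OK p F) (s : Finset ℕ) (Z : Set ℕ)
    (hZ : Z.Infinite) (hp : Perp Z (p.all ∪ F)) (T : Set (Set ℕ)) (hT : Fus p.all T) :
    ∃ W ⊆ Z, W.Infinite ∧ (↑s ∪ W : Set ℕ) ∈ T ∧ OK p (insert (↑s ∪ W : Set ℕ) F) := by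
  -- the finite sets of points
  let Pt : Bool → Set (Set ℕ) := fun i => {y | y.Finite} ∪ (p.A i ∪ F)
  have hPt : ∀ i, (Pt i).Countable := by
    intro i
    exact Set.Countable.union Set.Countable.ofPred_finite ((p.cA i).union h.cF)
  let TG : Bool → ((Finset (Finset ℕ) → ℕ) × Set (Set ℕ)) → Set (Set ℕ) → Set (Set ℕ) :=
    fun i g E => {Y | (∀ y ∈ E, y.Finite ∨ y ∈ (p.A i ∪ F) \ g.2) → ∃ F', Cov g.1 (insert Y E) F'}
  let 𝒯 : Set (Set (Set ℕ)) := {T} ∪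
    ((⋃ i, ⋃ g ∈ p.G i, (TG i g) '' {E | E.Finite ∧ E ⊆ Pt i}) ∪
      (⋃ i, ⋃ q ∈ p.Q i, range (fun k : ℕ => KeptE q.1 q.2.1 (1 / (k + 1)))))
  have h𝒯c : 𝒯.Countable := by
    apply (countable_singleton T).union
    apply Set.Countable.union
    · apply countable_iUnion
      intro i
      apply (p.cG i).biUnion
      intro g _
      apply Set.Countable.image
      exact Set.countable_ofPred_finite_subset (hPt i)
    · apply countable_iUnion
      intro i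
      apply (p.cQ i).biUnion
      intro q _
      exact countable_range _
  have h𝒯 : ∀ T' ∈ 𝒯, Fus p.all T' := by
    rintro T' (rfl | hT' | hT')
    · exact hT
    · obtain ⟨i, hT'⟩ := mem_iUnion.1 hT'
      obtain ⟨g, hT'⟩ := mem_iUnion.1 hT'
      obtain ⟨hg, E, ⟨hE, hE'⟩, rfl⟩ := mem_iUnion.1 hT'
      apply fus_open
      intro s'
      by_cases hEE : ∀ y ∈ E, y.Finite ∨ y ∈ (p.A i ∪ F) \ g.2
      swap
      · exact ⟨0, fun Y _ hc => absurd hc hEE⟩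
      obtain ⟨F', hF'⟩ := h.hG i g hg (insert (↑s' : Set ℕ) E) (hE.insert _) (by
        intro y hy
        rcases hy with rfl | hy
        · exact Or.inl s'.finite_toSet
        · exact hEE y hy)
      refine ⟨g.1 F', fun Y hY _ => ⟨F', ?_⟩⟩
      intro y hy
      rcases hy with rfl | hy
      · obtain ⟨s'', h1, h2⟩ := hF' (↑s') (mem_insert _ _)
        refine ⟨s'', h1, fun x hx => ?_⟩
        rw [hY x hx, ← h2 x hx]
        rfl
      · exact hF' y (mem_insert_of_mem _ hy)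
    · obtain ⟨i, hT'⟩ := mem_iUnion.1 hT'
      obtain ⟨q, hT'⟩ := mem_iUnion.1 hT'
      obtain ⟨hq, k, rfl⟩ := mem_iUnion.1 hT'
      exact p.hQ' i q hq _ (by positivity)
  obtain ⟨W, hW, hWi, hWT⟩ := fusB p.all 𝒯 h𝒯c h𝒯 s Z hZ (hp.mono subset_rfl subset_union_left)
  have hperp : ∀ Y ∈ p.all ∪ F, ((↑s ∪ W : Set ℕ) ∩ Y).Finite := by
    intro Y hY
    rw [union_inter_distrib_right]
    exact (s.finite_toSet.subset inter_subset_left).union
      ((hp Y hY).subset (inter_subset_inter_left _ hW))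
  refine ⟨W, hW, hWi, hWT T (Or.inl rfl), ?_⟩
  constructor
  · exact h.cF.insert _
  · intro Y hY
    rcases hY with rfl | hY
    · exact hWi.mono subset_union_right
    · exact h.inf Y hY
  · intro Y hY
    rcases hY with rfl | hY
    · exact fun Y' hY' => hperp Y' (Or.inl hY')
    · exact h.adp Y hY
  · intro Y hY Y' hY' hne
    rcases hY with rfl | hY <;> rcases hY' with rfl | hY'
    · exact absurd rfl hne
    · exact hperp Y' (Or.inr hY')
    · rw [inter_comm]; exact hperp Y (Or.inr hY)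
    · exact h.ad Y hY Y' hY' hne
  · intro i g hg E hE hE'
    have key : (↑s ∪ W : Set ℕ) ∈ TG i g (E \ {(↑s ∪ W : Set ℕ)}) := by
      apply hWT
      refine Or.inr (Or.inl (mem_iUnion.2 ⟨i, mem_iUnion.2 ⟨g, mem_iUnion.2 ⟨hg, ?_⟩⟩⟩))
      refine ⟨_, ⟨hE.subset sdiff_subset, ?_⟩, rfl⟩
      intro y hy
      rcases hE' y hy.1 with h1 | ⟨h1 | h1, h2⟩
      · exact Or.inl h1
      · exact Or.inr (Or.inl h1)
      · rcases h1 with h1 | h1
        · exact absurd h1 hy.2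
        · exact Or.inr (Or.inr h1)
    obtain ⟨F', hF'⟩ := key (by
      intro y hy
      rcases hE' y hy.1 with h1 | ⟨h1 | h1, h2⟩
      · exact Or.inl h1
      · exact Or.inr ⟨Or.inl h1, h2⟩
      · rcases h1 with h1 | h1
        · exact absurd h1 hy.2
        · exact Or.inr ⟨Or.inr h1, h2⟩)
    refine ⟨F', fun y hy => hF' y ?_⟩
    by_cases hyW : y = (↑s ∪ W : Set ℕ)
    · exact Or.inl hyW
    · exact Or.inr ⟨hy, hyW⟩
  · intro i q hq Y hY ε hε
    rcases hY with rfl | hY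
    · obtain ⟨k, hk⟩ := exists_nat_one_div_lt hε
      apply KeptE_mono hk.le
      apply hWT
      exact Or.inr (Or.inr (mem_iUnion.2 ⟨i, mem_iUnion.2 ⟨q, mem_iUnion.2 ⟨hq, k, rfl⟩⟩⟩))
    · exact h.hQ i q hq Y hY ε hε

end St

end Pool.Agent.H44G
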