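import Mathlib
import Pool.Agent.Lib.H44.Groth.State

/-!
# Building bigger states
-/

namespace Pool.Agent.H44G

open Set

namespace St

open Classical in
/-- add `F` on side `i`. -/
noncomputable def addSide (p : St) (i : Bool) (F : Set (Set ℕ)) (h : OK p F) : St where
  A j := if j = i then p.A j ∪ F else p.A j
  G := p.G
  Q := p.Q
  cA j := by
    split_ifs
    · exact (p.cA j).union h.cF
    · exact p.cA j
  cG := p.cG
  cQ := p.cQ
  inf j Y hY := by
    split_ifs at hY
    · rcases hY with hY | hY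
      · exact p.inf j Y hY
      · exact h.inf Y hY
    · exact p.inf j Y hY
  ad := by
    have key : ∀ j, ∀ Y, Y ∈ (if j = i then p.A j ∪ F else p.A j) → (Y ∈ p.A j ∨ Y ∈ F) := by
      intro j Y hY
      split_ifs at hY
      · exact hY
      · exact Or.inl hY
    intro j j' Y hY Y' hY' hne
    rcases key j Y hY with h1 | h1 <;> rcases key j' Y' hY' with h2 | h2
    · exact p.ad j j' Y h1 Y' h2 hne
    · rw [inter_comm]; exact h.adp Y' h2 Y (p.A_sub_all j h1)
    · exact h.adp Y h1 Y' (p.A_sub_all j' h2)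
    · exact h.ad Y h1 Y' h2 hne
  hG j g hg := by
    apply (h.hG j g hg).mono
    split_ifs
    · exact subset_rfl
    · exact subset_union_left
  hQ j q hq Y hY ε hε := by
    rcases hY with ⟨h1, h2⟩
    split_ifs at h1
    · rcases h1 with h1 | h1
      · exact p.hQ j q hq Y ⟨h1, h2⟩ ε hε
      · exact h.hQ j q hq Y h1 ε hε
    · exact p.hQ j q hq Y ⟨h1, h2⟩ ε hε
  hQ' j q hq ε hε := by
    apply (p.hQ' j q hq ε hε).mono
    apply iUnion_mono
    intro k
    split_ifs
    · exact subset_union_left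
    · exact subset_rfl

theorem le_addSide (p : St) (i : Bool) (F : Set (Set ℕ)) (h : OK p F) : p ≤ p.addSide i F h := by
  intro j
  refine ⟨?_, subset_rfl, subset_rfl⟩
  simp only [addSide]
  split_ifs
  · exact subset_union_left
  · exact subset_rfl

theorem addSide_A_self (p : St) (i : Bool) (F : Set (Set ℕ)) (h : OK p F) :
    (p.addSide i F h).A i = p.A i ∪ F := by simp [addSide]

theorem addSide_A_ne (p : St) (i j : Bool) (F : Set (Set ℕ)) (h : OK p F) (hj : j ≠ i) :
    (p.addSide i F h).A j = p.A j := by simp [addSide, hj]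

theorem addSide_all (p : St) (i : Bool) (F : Set (Set ℕ)) (h : OK p F) :
    (p.addSide i F h).all = p.all ∪ F := by
  apply Subset.antisymm
  · apply iUnion_subset
    intro j
    by_cases hj : j = i
    · subst hj
      rw [addSide_A_self]
      exact union_subset_union_left _ (p.A_sub_all j)
    · rw [addSide_A_ne _ _ _ _ _ hj]
      exact (p.A_sub_all j).trans subset_union_left
  · apply union_subset
    · exact all_mono (p.le_addSide i F h)
    · intro Y hY
      apply (p.addSide i F h).A_sub_all i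
      rw [addSide_A_self]
      exact Or.inr hY

/-- record a concentration condition. -/
def addG (p : St) (i : Bool) (m : Finset (Finset ℕ) → ℕ) : St where
  A := p.A
  G j := if j = i then insert (m, p.A i) (p.G j) else p.G j
  Q := p.Q
  cA := p.cA
  cG j := by
    split_ifs
    · exact (p.cG j).insert _
    · exact p.cG j
  cQ := p.cQ
  inf := p.inf
  ad := p.ad
  hG j g hg := by
    split_ifs at hg with hj
    · rcases hg with rfl | hg
      · intro E hE hE'
        subst hj
        have hE'' : ∀ y ∈ E, y.Finite := by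
          intro y hy
          rcases hE' y hy with h | h
          · exact h
          · exact absurd h.1 h.2
        classical
        refine ⟨hE.toFinset.image fun y => if h : y.Finite then h.toFinset else ∅, ?_⟩
        intro y hy
        refine ⟨(hE'' y hy).toFinset, ?_, ?_⟩
        · refine Finset.mem_image.2 ⟨y, hE.mem_toFinset.2 hy, ?_⟩
          rw [dif_pos (hE'' y hy)]
        · intro x _
          rw [Set.Finite.mem_toFinset]
      · exact p.hG j g hg
    · exact p.hG j g hg
  hQ := p.hQ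
  hQ' := p.hQ'

theorem le_addG (p : St) (i : Bool) (m : Finset (Finset ℕ) → ℕ) : p ≤ p.addG i m := by
  intro j
  refine ⟨subset_rfl, ?_, subset_rfl⟩
  simp only [addG]
  split_ifs
  · exact subset_insert _ _
  · exact subset_rfl

theorem mem_addG (p : St) (i : Bool) (m : Finset (Finset ℕ) → ℕ) :
    (m, p.A i) ∈ (p.addG i m).G i := by simp [addG]

/-- record a promise. -/
def addQ (p : St) (i : Bool) (φ : ℕ → Finset ℕ → ℝ) (J : Set ℕ)
    (h : ∀ ε > 0, Fus p.all (KeptE φ J ε)) : St where
  A := p.A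
  G := p.G
  Q j := if j = i then insert (φ, J, p.A i) (p.Q j) else p.Q j
  cA := p.cA
  cG := p.cG
  cQ j := by
    split_ifs
    · exact (p.cQ j).insert _
    · exact p.cQ j
  inf := p.inf
  ad := p.ad
  hG := p.hG
  hQ j q hq Y hY ε hε := by
    split_ifs at hq with hj
    · rcases hq with rfl | hq
      · subst hj
        exact absurd hY.1 hY.2
      · exact p.hQ j q hq Y hY ε hε
    · exact p.hQ j q hq Y hY ε hε
  hQ' j q hq ε hε := by
    split_ifs at hq with hj
    · rcases hq with rfl | hq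
      · exact h ε hε
      · exact p.hQ' j q hq ε hε
    · exact p.hQ' j q hq ε hε

theorem le_addQ (p : St) (i : Bool) (φ : ℕ → Finset ℕ → ℝ) (J : Set ℕ)
    (h : ∀ ε > 0, Fus p.all (KeptE φ J ε)) : p ≤ p.addQ i φ J h := by
  intro j
  refine ⟨subset_rfl, subset_rfl, ?_⟩
  simp only [addQ]
  split_ifs
  · exact subset_insert _ _
  · exact subset_rfl

theorem mem_addQ (p : St) (i : Bool) (φ : ℕ → Finset ℕ → ℝ) (J : Set ℕ)
    (h : ∀ ε > 0, Fus p.all (KeptE φ J ε)) :
    (φ, J, p.A i) ∈ (p.addQ i φ J h).Q i := by simp [addQ]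

/-- Upper bounds of countable chains. -/
theorem exists_sup (C : Set St) (hC : C.Countable) (hch : IsChain (· ≤ ·) C) :
    ∃ u : St, ∀ p ∈ C, p ≤ u := by
  have hdir : ∀ p ∈ C, ∀ q ∈ C, ∃ r ∈ C, p ≤ r ∧ q ≤ r := by
    intro p hp q hq
    rcases hch.total hp hq with h | h
    · exact ⟨q, hq, h, le_rfl⟩
    · exact ⟨p, hp, le_rfl, h⟩
  refine ⟨⟨fun i => ⋃ p ∈ C, p.A i, fun i => ⋃ p ∈ C, p.G i, fun i => ⋃ p ∈ C, p.Q i,
    fun i => hC.biUnion fun p _ => p.cA i, fun i => hC.biUnion fun p _ => p.cG i,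
    fun i => hC.biUnion fun p _ => p.cQ i, ?_, ?_, ?_, ?_, ?_⟩, ?_⟩
  · intro i Y hY
    simp only [mem_iUnion] at hY
    obtain ⟨p, hp, hY⟩ := hY
    exact p.inf i Y hY
  · intro i i' Y hY Y' hY' hne
    simp only [mem_iUnion] at hY hY'
    obtain ⟨p, hp, hY⟩ := hY
    obtain ⟨q, hq, hY'⟩ := hY'
    obtain ⟨r, hr, h1, h2⟩ := hdir p hp q hq
    exact r.ad i i' Y ((h1 i).1 hY) Y' ((h2 i').1 hY') hne
  · intro i g hg
    simp only [mem_iUnion] at hg
    obtain ⟨p, hp, hg⟩ := hg
    intro E hE hE'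
    have : ∃ q ∈ C, p ≤ q ∧ ∀ y ∈ E, y.Finite ∨ y ∈ q.A i \ g.2 := by
      induction E, hE using Set.Finite.induction_on with
      | empty => exact ⟨p, hp, le_rfl, by simp⟩
      | @insert a E ha hEf ih =>
        obtain ⟨q, hq, hpq, hqE⟩ := ih (fun y hy => hE' y (mem_insert_of_mem _ hy))
        rcases hE' a (mem_insert _ _) with h1 | ⟨h1, h2⟩
        · exact ⟨q, hq, hpq, fun y hy => (mem_insert_iff.1 hy).elim (fun h => h ▸ Or.inl h1) (hqE y)⟩
        · simp only [mem_iUnion] at h1
          obtain ⟨r, hr, h1⟩ := h1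
          obtain ⟨v, hv, hv1, hv2⟩ := hdir q hq r hr
          refine ⟨v, hv, hpq.trans hv1, fun y hy => (mem_insert_iff.1 hy).elim
            (fun h => h ▸ Or.inr ⟨(hv2 i).1 h1, h2⟩) (fun hy => ?_)⟩
          rcases hqE y hy with h3 | h3
          · exact Or.inl h3
          · exact Or.inr ⟨(hv1 i).1 h3.1, h3.2⟩
    obtain ⟨q, hq, hpq, hqE⟩ := this
    exact q.hG i g ((hpq i).2.1 hg) E hE hqE
  · intro i q hq Y hY ε hε
    simp only [mem_iUnion] at hq
    obtain ⟨p, hp, hq⟩ := hq
    obtain ⟨h1, h2⟩ := hY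
    simp only [mem_iUnion] at h1
    obtain ⟨p', hp', h1⟩ := h1
    obtain ⟨r, hr, hr1, hr2⟩ := hdir p hp p' hp'
    exact r.hQ i q ((hr1 i).2.2 hq) Y ⟨(hr2 i).1 h1, h2⟩ ε hε
  · intro i q hq ε hε
    simp only [mem_iUnion] at hq
    obtain ⟨p, hp, hq⟩ := hq
    apply (p.hQ' i q hq ε hε).mono
    apply iUnion_mono
    intro j
    exact subset_biUnion_of_mem (u := fun p : St => p.A j) hp
  · intro p hp i
    exact ⟨subset_biUnion_of_mem (u := fun p : St => p.A i) hp,
      subset_biUnion_of_mem (u := fun p : St => p.G i) hp,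
      subset_biUnion_of_mem (u := fun p : St => p.Q i) hp⟩

end St

end Pool.Agent.H44G
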