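import Mathlib

/-!
# Generic chains of length `ω₁`
-/

namespace Pool.Agent.H44G

open Set Cardinal

theorem exists_wellOrder : ∃ (W : Type) (_ : LinearOrder W) (_ : WellFoundedLT W),
    #W = ℵ₁ ∧ ∀ w : W, (Set.Iio w).Countable := by
  refine ⟨(Cardinal.aleph 1).ord.ToType, inferInstance, inferInstance, ?_, ?_⟩
  · exact Cardinal.mk_ord_toType _
  · intro w
    have := Cardinal.mk_Iio_toType_ord_lt w
    rw [← Set.countable_coe_iff, ← Cardinal.mk_le_aleph0_iff]
    exact Cardinal.lt_aleph_one_iff.mp this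

theorem exists_chain {P : Type} [Preorder P]
    (hsup : ∀ C : Set P, C.Countable → IsChain (· ≤ ·) C → ∃ u, ∀ p ∈ C, p ≤ u)
    {T : Type} [Nonempty T] (hT : #T ≤ ℵ₁) (R : T → P → P → Prop)
    (hR : ∀ t p, ∃ q, p ≤ q ∧ R t p q) (p0 : P) :
    ∃ C : Set P, IsChain (· ≤ ·) C ∧ (∀ S ⊆ C, S.Countable → ∃ u ∈ C, ∀ p ∈ S, p ≤ u) ∧
      (∀ p ∈ C, p0 ≤ p) ∧
      ∀ t, ∀ p ∈ C, ∃ p' ∈ C, p ≤ p' ∧ ∃ q, p' ≤ q ∧ R t p' q ∧ ∃ p'' ∈ C, q ≤ p'' := by
  obtain ⟨W, _, _, hW, hIio⟩ := exists_wellOrder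
  have hWunc : ¬ (Set.univ : Set W).Countable := by
    intro h
    rw [Set.countable_univ_iff, ← Cardinal.mk_le_aleph0_iff, hW] at h
    exact absurd h (not_le.2 Cardinal.aleph0_lt_aleph_one)
  have hIic : ∀ w : W, (Set.Iic w).Countable := by
    intro w
    rw [← Set.Iio_insert]
    exact (hIio w).insert _
  -- countable sets are strictly bounded
  have hbdd : ∀ S : Set W, S.Countable → ∃ w, ∀ v ∈ S, v < w := by
    intro S hS
    by_contra hcon
    push Not at hcon
    apply hWunc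
    apply (hS.biUnion fun v _ => hIic v).mono
    intro w _
    obtain ⟨v, hv, hvw⟩ := hcon w
    exact mem_biUnion hv hvw
  -- the enumeration of the tasks
  have hg : ∃ g : W → T × W, Function.Surjective g := by
    have : #(T × W) ≤ #W := by
      rw [Cardinal.mk_prod, Cardinal.lift_id, Cardinal.lift_id, hW]
      calc #T * ℵ₁ ≤ ℵ₁ * ℵ₁ := mul_le_mul_left hT _
        _ = ℵ₁ := Cardinal.mul_eq_self (Cardinal.aleph0_le_aleph 1)
    have hne : Nonempty (T × W) := by
      have : Nonempty W := by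
        rw [← Cardinal.mk_ne_zero_iff, hW]
        exact (Cardinal.aleph_pos 1).ne'
      exact inferInstance
    obtain ⟨f⟩ := this
    exact ⟨Function.invFun f, Function.invFun_surjective f.injective⟩
  obtain ⟨g, hg⟩ := hg
  have hcof : ∀ (t : T) (α : W), ∃ w, α ≤ w ∧ (g w).1 = t := by
    intro t α
    by_contra hcon
    push Not at hcon
    apply hWunc
    have h1 : {w | (g w).1 = t} ⊆ Iio α := by
      intro w hw
      by_contra h
      exact hcon w (not_lt.1 h) hw
    apply (((hIio α).mono h1).image fun w => (g w).2).mono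
    intro w _
    obtain ⟨v, hv⟩ := hg (t, w)
    exact ⟨v, by simp [hv], by simp [hv]⟩
  have hWne : Nonempty W := by
    rw [← Cardinal.mk_ne_zero_iff, hW]
    exact (Cardinal.aleph_pos 1).ne'
  choose r hr1 hr2 using hR
  classical
  let Fx : (β : W) → ((γ : W) → γ < β → P) → P := fun β ih =>
    if h : ∃ u, p0 ≤ u ∧ ∀ γ, ∀ hγ : γ < β, r (g γ).1 (ih γ hγ) ≤ u then h.choose else p0
  let u : W → P := WellFounded.fix (wellFounded_lt (α := W)) Fx
  have hu : ∀ β, u β = Fx β fun γ _ => u γ := fun β => WellFounded.fix_eq _ _ _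
  have hmain : ∀ β, p0 ≤ u β ∧ ∀ γ < β, r (g γ).1 (u γ) ≤ u β := by
    intro β
    induction β using WellFoundedLT.induction with
    | ind β ih =>
      have h : ∃ v, p0 ≤ v ∧ ∀ γ, ∀ _ : γ < β, r (g γ).1 (u γ) ≤ v := by
        obtain ⟨v, hv⟩ := hsup (insert p0 ((fun γ => r (g γ).1 (u γ)) '' Iio β))
          (((hIio β).image _).insert _) (by
            have key : ∀ γ γ', γ' < β → γ < γ' → r (g γ).1 (u γ) ≤ r (g γ').1 (u γ') := by
              intro γ γ' h1 h2
              exact ((ih γ' h1).2 γ h2).trans (hr1 _ _)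
            have key0 : ∀ γ < β, p0 ≤ r (g γ).1 (u γ) := fun γ hγ => (ih γ hγ).1.trans (hr1 _ _)
            rintro x (rfl | ⟨γ, hγ, rfl⟩) y (rfl | ⟨γ', hγ', rfl⟩) hne
            · exact absurd rfl hne
            · exact Or.inl (key0 γ' hγ')
            · exact Or.inr (key0 γ hγ)
            · rcases lt_trichotomy γ γ' with h | h | h
              · exact Or.inl (key _ _ hγ' h)
              · subst h; exact absurd rfl hne
              · exact Or.inr (key _ _ hγ h))
        exact ⟨v, hv _ (mem_insert _ _), fun γ hγ => hv _ (mem_insert_of_mem _ ⟨γ, hγ, rfl⟩)⟩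
      have h2 : u β = h.choose := by
        rw [hu]
        exact dif_pos h
      rw [h2]
      exact ⟨h.choose_spec.1, fun γ hγ => h.choose_spec.2 γ hγ⟩
  have hlt : ∀ α β, α < β → u α ≤ u β := fun α β h => (hr1 _ _).trans ((hmain β).2 α h)
  have hmono : Monotone u := by
    intro α β h
    rcases h.eq_or_lt with rfl | h
    · exact le_rfl
    · exact hlt _ _ h
  refine ⟨range u, ?_, ?_, ?_, ?_⟩
  · rintro _ ⟨α, rfl⟩ _ ⟨β, rfl⟩ _
    rcases le_total α β with h | h
    · exact Or.inl (hmono h)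
    · exact Or.inr (hmono h)
  · intro S hS hSc
    choose! f hf using hS
    obtain ⟨w, hw⟩ := hbdd (f '' S) (hSc.image f)
    refine ⟨u w, mem_range_self w, fun p hp => ?_⟩
    rw [← hf hp]
    exact hlt _ _ (hw _ ⟨p, hp, rfl⟩)
  · rintro _ ⟨α, rfl⟩
    exact (hmain α).1
  · rintro t _ ⟨α, rfl⟩
    obtain ⟨w, hw, hwt⟩ := hcof t α
    obtain ⟨w', hw'⟩ := hbdd {w} (countable_singleton w)
    refine ⟨u w, mem_range_self w, hmono hw, r t (u w), hr1 _ _, hr2 _ _, u w',
      mem_range_self w', ?_⟩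
    have := (hmain w').2 w (hw' w rfl)
    rwa [hwt] at this

end Pool.Agent.H44G
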