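import Mathlib
import Pool.Agent.Lib.H44.Groth.Build

/-!
# The violation / promise dichotomy
-/

namespace Pool.Agent.H44G

open Set

/-- all infinite subsets `Y` of `Z` make `φ n` large on an initial segment of `s ∪ Y` for
infinitely many `n ∈ J`. -/
def BadS (φ : ℕ → Finset ℕ → ℝ) (s : Finset ℕ) (ε : ℝ) (J : Set ℕ) (Z : Set ℕ) : Prop :=
  ∀ Y ⊆ Z, Y.Infinite → ∀ N, ∃ n ∈ J, N ≤ n ∧ ∃ j, ε ≤ |φ n (s ∪ cut Y j)|

theorem BadS.mono {φ : ℕ → Finset ℕ → ℝ} {s : Finset ℕ} {ε : ℝ} {J J' : Set ℕ} {Z Z' : Set ℕ}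
    (h : BadS φ s ε J Z) (hZ : Z' ⊆ Z) (hJ : ∃ N, ∀ n ∈ J, N ≤ n → n ∈ J') :
    BadS φ s ε J' Z' := by
  obtain ⟨N₀, hN₀⟩ := hJ
  intro Y hY hYi N
  obtain ⟨n, hn, hNn, j, hj⟩ := h Y (hY.trans hZ) hYi (max N N₀)
  exact ⟨n, hN₀ n hn ((le_max_right _ _).trans hNn), (le_max_left _ _).trans hNn, j, hj⟩

/-- No set orthogonal to `𝓐` is bad. -/
def GoodS (φ : ℕ → Finset ℕ → ℝ) (s : Finset ℕ) (ε : ℝ) (J : Set ℕ) (𝓐 : Set (Set ℕ)) : Prop :=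
  ∀ Z : Set ℕ, Z.Infinite → Perp Z 𝓐 → ¬ BadS φ s ε J Z

theorem GoodS.mono {φ : ℕ → Finset ℕ → ℝ} {s : Finset ℕ} {ε : ℝ} {J J' : Set ℕ}
    {𝓐 𝓐' : Set (Set ℕ)} (h : GoodS φ s ε J 𝓐) (hA : 𝓐 ⊆ 𝓐')
    (hJ : ∃ N, ∀ n ∈ J', N ≤ n → n ∈ J) : GoodS φ s ε J' 𝓐' :=
  fun Z hZ hp hb => h Z hZ (hp.mono subset_rfl hA) (hb.mono subset_rfl hJ)

theorem fus_of_goodS {φ : ℕ → Finset ℕ → ℝ} {J : Set ℕ} {𝓐 : Set (Set ℕ)}
    (hnull : ∀ s, Null (fun n => φ n s) J)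
    (h : ∀ s, ∀ k : ℕ, GoodS φ s (1 / (k + 1)) J 𝓐) : ∀ ε > 0, Fus 𝓐 (KeptE φ J ε) := by
  intro ε hε s Z hZ hp
  obtain ⟨k, hk⟩ := exists_nat_one_div_lt hε
  rcases dichotomy (fun m t => ∃ n ∈ J, m ≤ n ∧ (1 / ((k : ℝ) + 1)) ≤ |φ n (s ∪ t)|)
    (fun m m' t hm ⟨n, h1, h2, h3⟩ => ⟨n, h1, hm.trans h2, h3⟩) (above s Z)
    (above_infinite hZ) with ⟨Z1, h1, h1i, h1R⟩ | ⟨t, ht, Z1, h1, h1i, m, hm⟩
  · exfalso
    apply h s k Z1 h1i (hp.mono (h1.trans (above_subset _ _)) subset_rfl)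
    intro Y hY hYi N
    obtain ⟨j, n, hn, hNn, hj⟩ := h1R Y hY hYi N
    exact ⟨n, hn, hNn, j, hj⟩
  · refine ⟨t, ht.trans (above_subset _ _), Z1, h1.trans ((above_subset _ _).trans
      (above_subset _ _)), h1i, ?_⟩
    intro Y' hY' _
    obtain ⟨M, hM⟩ := exists_bd (s ∪ t)
    -- small initial segments
    have hsmall : ∃ N, ∀ v ∈ (Finset.range M).powerset, ∀ n ∈ J, N ≤ n → |φ n v| < ε := by
      choose N hN using fun v => hnull v ε hε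
      refine ⟨(Finset.range M).powerset.sup N, fun v hv n hn hNn => hN v n hn ?_⟩
      exact (Finset.le_sup (f := N) hv).trans hNn
    obtain ⟨N, hN⟩ := hsmall
    refine ⟨max N m, ?_⟩
    intro n hn hNn j
    rcases lt_or_ge j M with hj | hj
    · apply hN _ _ n hn ((le_max_left _ _).trans hNn)
      rw [Finset.mem_powerset]
      intro x hx
      have := (mem_cut.1 hx).1
      rw [Finset.mem_range]; omega
    · have h2 : cut (↑s ∪ ↑t ∪ Y') j = s ∪ (t ∪ cut Y' j) := by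
        rw [← Finset.coe_union, cut_union_of_le (fun x hx => (hM x hx).trans_le hj),
          Finset.union_assoc]
      rw [h2]
      have h3 := hm (cut Y' j) (fun x hx => hY' (mem_cut.1 hx).2)
      by_contra hcon
      rw [not_lt] at hcon
      exact h3 ⟨n, hn, (le_max_right _ _).trans hNn, hk.le.trans hcon⟩

/-- the modulus function. -/
theorem exists_thin {φ : ℕ → Finset ℕ → ℝ} (hc : ContFin φ) {I : Set ℕ}
    (hnull : ∀ s, Null (fun n => φ n s) I) {ε : ℝ} (hε : 0 < ε) :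
    ∃ b : Finset ℕ → ℕ, ∀ Y ∈ Thin b, ∀ J ⊆ I,
      (∀ N, ∃ n ∈ J, N ≤ n ∧ ∃ j, ε ≤ |φ n (cut Y j)|) →
      {n ∈ J | ∃ j₀, ∀ j ≥ j₀, ε / 2 ≤ |φ n (cut Y j)|}.Infinite := by
  choose N hN using fun v => hnull v ε hε
  choose m hm using fun n t => hc n t (ε / 2) (by positivity)
  refine ⟨fun t => (Finset.range (N t)).sup fun n => m n t, ?_⟩
  rintro Y ⟨j₀, hj₀⟩ J hJ hbig
  apply Set.infinite_of_forall_exists_gt
  intro K
  obtain ⟨n, hn, hKn, j, hj⟩ := hbig (max (K + 1) ((Finset.range j₀).sup fun j => N (cut Y j)))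
  refine ⟨n, ⟨hn, j, ?_⟩, (le_max_left _ _).trans hKn⟩
  have hnN : n < N (cut Y j) := by
    by_contra hcon
    rw [not_lt] at hcon
    exact absurd hj (not_le.2 (hN (cut Y j) n (hJ hn) hcon))
  have hjj : j₀ ≤ j := by
    by_contra hcon
    rw [not_le] at hcon
    have h1 : N (cut Y j) ≤ (Finset.range j₀).sup fun j => N (cut Y j) :=
      Finset.le_sup (f := fun j => N (cut Y j)) (Finset.mem_range.2 hcon)
    have h2 := (le_max_right _ _).trans hKn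
    omega
  intro j' hj'
  have hsplit : cut Y j' = cut Y j ∪ (cut Y j').filter (fun x => j ≤ x) := by
    ext x
    simp only [Finset.mem_union, mem_cut, Finset.mem_filter]
    constructor
    · rintro ⟨h1, h2⟩
      by_cases hx : x < j
      · exact Or.inl ⟨hx, h2⟩
      · exact Or.inr ⟨⟨h1, h2⟩, not_lt.1 hx⟩
    · rintro (⟨h1, h2⟩ | ⟨⟨h1, h2⟩, h3⟩)
      · exact ⟨by omega, h2⟩
      · exact ⟨h1, h2⟩
  have hdiff : |φ n (cut Y j') - φ n (cut Y j)| ≤ ε / 2 := by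
    rw [hsplit]
    apply hm
    intro x hx
    rw [Finset.mem_filter, mem_cut] at hx
    have h1 := hj₀ j hjj x hx.1.2 hx.2
    refine le_trans ?_ h1
    exact Finset.le_sup (f := fun n => m n (cut Y j)) (Finset.mem_range.2 hnN)
  have h4 : |φ n (cut Y j)| ≤ |φ n (cut Y j')| + |φ n (cut Y j') - φ n (cut Y j)| := by
    have := abs_sub_abs_le_abs_sub (φ n (cut Y j)) (φ n (cut Y j'))
    rw [abs_sub_comm] at this
    linarith
  linarith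

/-- pseudo-intersection. -/
theorem exists_pseudo (J : ℕ → Set ℕ) (hJ : ∀ k, (J k).Infinite) (hanti : Antitone J) :
    ∃ P ⊆ J 0, P.Infinite ∧ ∀ k, ∃ N, ∀ n ∈ P, N ≤ n → n ∈ J k := by
  have hstep : ∀ k : ℕ, ∀ a : ℕ, ∃ b, a < b ∧ b ∈ J k := by
    intro k a
    obtain ⟨b, hb, hab⟩ := (hJ k).exists_gt a
    exact ⟨b, hab, hb⟩
  choose g hg1 hg2 using hstep
  let f : ℕ → ℕ := fun k => Nat.rec (g 0 0) (fun k a => g (k + 1) a) k
  have hf : ∀ k, f (k + 1) = g (k + 1) (f k) := fun k => rfl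
  have hmono : StrictMono f := strictMono_nat_of_lt_succ fun k => by
    rw [hf]; exact hg1 _ _
  have hmem : ∀ k, f k ∈ J k := by
    intro k
    cases k with
    | zero => exact hg2 0 0
    | succ k => rw [hf]; exact hg2 _ _
  refine ⟨range f, ?_, Set.infinite_range_of_injective hmono.injective, ?_⟩
  · rintro _ ⟨k, rfl⟩
    exact hanti (Nat.zero_le k) (hmem k)
  · intro k
    refine ⟨f k, ?_⟩
    rintro _ ⟨l, rfl⟩ hl
    exact hanti (hmono.le_iff_le.1 hl) (hmem l)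

namespace St

theorem OK.step {p : St} {F : Set (Set ℕ)} (h : OK p F) {φ : ℕ → Finset ℕ → ℝ}
    {I : Set ℕ} {s : Finset ℕ} {ε : ℝ} {b : Finset ℕ → ℕ}
    (hb : ∀ Y ∈ Thin b, ∀ J ⊆ I,
      (∀ N, ∃ n ∈ J, N ≤ n ∧ ∃ j, ε ≤ |φ n (cut Y j)|) →
      {n ∈ J | ∃ j₀, ∀ j ≥ j₀, ε / 2 ≤ |φ n (cut Y j)|}.Infinite)
    {J : Set ℕ} (hJI : J ⊆ I) {Z : Set ℕ} (hZ : Z.Infinite) (hp : Perp Z (p.all ∪ F))
    (hbad : BadS φ s ε J Z) (k : ℕ) :
    ∃ Y : Set ℕ, OK p (insert Y F) ∧ (∀ x < k, (x ∈ Y ↔ x ∈ s)) ∧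
      {n ∈ J | ∃ j₀, ∀ j ≥ j₀, ε / 2 ≤ |φ n (cut Y j)|}.Infinite := by
  obtain ⟨M, hM⟩ := exists_bd s
  have hsub : {z ∈ Z | max M k ≤ z} ⊆ Z := fun z hz => hz.1
  obtain ⟨W, hW, hWi, hWT, hWok⟩ := h.extend s {z ∈ Z | max M k ≤ z}
    (infinite_inter_Ici hZ _) (hp.mono hsub subset_rfl) (Thin b) (fus_thin _ b)
  refine ⟨_, hWok, ?_, ?_⟩
  · intro x hx
    constructor
    · rintro (h1 | h1)
      · exact h1
      · have := (hW h1).2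
        have := le_max_right M k
        omega
    · exact fun h1 => Or.inl h1
  · apply hb _ hWT J hJI
    intro N
    obtain ⟨n, hn, hNn, j, hj⟩ := hbad W (hW.trans hsub) hWi N
    refine ⟨n, hn, hNn, max j M, ?_⟩
    rw [cut_union_of_le (fun x hx => (hM x hx).trans_le (le_max_right _ _))]
    convert hj using 4
    ext x
    simp only [mem_cut]
    constructor
    · rintro ⟨h1, h2⟩
      have := (hW h2).2
      have := le_max_left M k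
      exact ⟨by omega, h2⟩
    · rintro ⟨h1, h2⟩
      exact ⟨by omega, h2⟩

/-- A violation. -/
def Viol (p : St) (φ : ℕ → Finset ℕ → ℝ) (I : Set ℕ) : Prop :=
  ∃ s : Finset ℕ, ∃ ε > 0, ∃ Y : ℕ → Set ℕ, OK p (range Y) ∧
    (∀ k, ∀ x < k, (x ∈ Y k ↔ x ∈ s)) ∧ ∃ J ⊆ I, J.Infinite ∧
      ∀ k, ∃ N, ∀ n ∈ J, N ≤ n → ∃ j₀, ∀ j ≥ j₀, ε ≤ |φ n (cut (Y k) j)|

theorem good_of_not_viol {p : St} {φ : ℕ → Finset ℕ → ℝ} (hc : ContFin φ) {I : Set ℕ}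
    (hnull : ∀ s, Null (fun n => φ n s) I) (hv : ¬ Viol p φ I) (s : Finset ℕ) {ε : ℝ}
    (hε : 0 < ε) {F : Set (Set ℕ)} (hF : OK p F) {J : Set ℕ} (hJI : J ⊆ I) (hJ : J.Infinite) :
    ∃ F', F ⊆ F' ∧ OK p F' ∧ ∃ J' ⊆ J, J'.Infinite ∧ GoodS φ s ε J' (p.all ∪ F') := by
  by_contra hcon
  push Not at hcon
  obtain ⟨b, hb⟩ := exists_thin hc hnull hε
  let P := {q : Set (Set ℕ) × Set ℕ // F ⊆ q.1 ∧ OK p q.1 ∧ q.2 ⊆ J ∧ q.2.Infinite}
  have hstep : ∀ (k : ℕ) (q : P), ∃ r : P, ∃ Y : Set ℕ, r.1.1 = insert Y q.1.1 ∧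
      r.1.2 ⊆ q.1.2 ∧ (∀ x < k, (x ∈ Y ↔ x ∈ s)) ∧
      ∀ n ∈ r.1.2, ∃ j₀, ∀ j ≥ j₀, ε / 2 ≤ |φ n (cut Y j)| := by
    rintro k ⟨⟨F', J'⟩, h1, h2, h3, h4⟩
    have := hcon F' h1 h2 J' h3 h4
    simp only [GoodS, not_forall, not_not] at this
    obtain ⟨Z, hZ, hp, hbad⟩ := this
    obtain ⟨Y, hY1, hY2, hY3⟩ := h2.step hb (h3.trans hJI) hZ hp hbad k
    exact ⟨⟨(insert Y F', {n ∈ J' | ∃ j₀, ∀ j ≥ j₀, ε / 2 ≤ |φ n (cut Y j)|}),
      h1.trans (subset_insert _ _), hY1, fun n hn => h3 hn.1, hY3⟩, Y, rfl,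
      fun n hn => hn.1, hY2, fun n hn => hn.2⟩
  choose nx Y hins hsub hag hlarge using hstep
  let p0 : P := ⟨(F, J), subset_rfl, hF, subset_rfl, hJ⟩
  let f : ℕ → P := fun k => Nat.rec p0 (fun k p => nx k p) k
  have hf : ∀ k, f (k + 1) = nx k (f k) := fun k => rfl
  have hJanti : Antitone fun k => (f k).1.2 := by
    apply antitone_nat_of_succ_le
    intro k
    rw [hf]; exact hsub k (f k)
  have hFmono : Monotone fun k => (f k).1.1 := by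
    apply monotone_nat_of_le_succ
    intro k
    rw [hf, hins]; exact subset_insert _ _
  have hok : OK p (⋃ k, (f k).1.1) := ok_iUnion (fun k => (f k).2.2.1) hFmono
  obtain ⟨J', hJ'0, hJ'i, hJ'⟩ := exists_pseudo (fun k => (f k).1.2) (fun k => (f k).2.2.2.2)
    hJanti
  apply hv
  refine ⟨s, ε / 2, by positivity, fun k => Y k (f k), hok.mono ?_, fun k => hag k (f k), J',
    hJ'0.trans ((f 0).2.2.2.1.trans hJI), hJ'i, ?_⟩
  · rintro _ ⟨k, rfl⟩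
    refine mem_iUnion.2 ⟨k + 1, ?_⟩
    rw [hf, hins]
    exact mem_insert _ _
  · intro k
    obtain ⟨N, hN⟩ := hJ' (k + 1)
    refine ⟨N, fun n hn hNn => ?_⟩
    have := hN n hn hNn
    simp only [hf] at this
    exact hlarge k (f k) n this

theorem kept_of_not_viol {p : St} {φ : ℕ → Finset ℕ → ℝ} (hc : ContFin φ) {I : Set ℕ}
    (hnull : ∀ s, Null (fun n => φ n s) I) (hI : I.Infinite) (hv : ¬ Viol p φ I) :
    ∃ F, OK p F ∧ ∃ J ⊆ I, J.Infinite ∧ ∀ ε > 0, Fus (p.all ∪ F) (KeptE φ J ε) := by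
  obtain ⟨e, he⟩ := exists_surjective_nat (Finset ℕ × ℕ)
  let P := {q : Set (Set ℕ) × Set ℕ // OK p q.1 ∧ q.2 ⊆ I ∧ q.2.Infinite}
  have hstep : ∀ (k : ℕ) (q : P), ∃ r : P, q.1.1 ⊆ r.1.1 ∧ r.1.2 ⊆ q.1.2 ∧
      GoodS φ (e k).1 (1 / ((e k).2 + 1)) r.1.2 (p.all ∪ r.1.1) := by
    rintro k ⟨⟨F', J'⟩, h1, h2, h3⟩
    obtain ⟨F1, hF1, hok1, J1, hJ1, hJ1i, hg⟩ := good_of_not_viol hc hnull hv (e k).1
      (ε := 1 / ((e k).2 + 1)) (by positivity) h1 h2 h3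
    exact ⟨⟨(F1, J1), hok1, hJ1.trans h2, hJ1i⟩, hF1, hJ1, hg⟩
  choose nx hFs hJs hgood using hstep
  let p0 : P := ⟨(∅, I), ok_empty p, subset_rfl, hI⟩
  let f : ℕ → P := fun k => Nat.rec p0 (fun k p => nx k p) k
  have hf : ∀ k, f (k + 1) = nx k (f k) := fun k => rfl
  have hJanti : Antitone fun k => (f k).1.2 := by
    apply antitone_nat_of_succ_le
    intro k
    rw [hf]; exact hJs k (f k)
  have hFmono : Monotone fun k => (f k).1.1 := by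
    apply monotone_nat_of_le_succ
    intro k
    rw [hf]; exact hFs k (f k)
  have hok : OK p (⋃ k, (f k).1.1) := ok_iUnion (fun k => (f k).2.1) hFmono
  obtain ⟨J', hJ'0, hJ'i, hJ'⟩ := exists_pseudo (fun k => (f k).1.2) (fun k => (f k).2.2.2)
    hJanti
  refine ⟨_, hok, J', hJ'0, hJ'i, fus_of_goodS ?_ ?_⟩
  · intro s ε hε
    obtain ⟨N, hN⟩ := hnull s ε hε
    exact ⟨N, fun n hn => hN n (hJ'0 hn)⟩
  · intro s k
    obtain ⟨i, hi⟩ := he (s, k)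
    have h1 := hgood i (f i)
    rw [hi, ← hf] at h1
    exact h1.mono (union_subset_union_right _ (subset_iUnion (fun k => (f k).1.1) (i + 1)))
      (hJ' (i + 1))

end St

end Pool.Agent.H44G
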