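import Mathlib
import Pool.Agent.Lib.H44.Groth.Key
import Pool.Agent.Lib.H44.Groth.Chain

/-!
# The families from CH
-/

namespace Pool.Agent.H44G

open Set Cardinal

/-! ### Cardinality of the set of tasks -/

theorem mk_arrow_le_continuum (ι : Type) [Countable ι] (Y : Type) (hY : #Y ≤ 𝔠) :
    #(ι → Y) ≤ 𝔠 := by
  rw [Cardinal.mk_arrow, Cardinal.lift_id, Cardinal.lift_id]
  rcases eq_or_ne (#Y) 0 with h0 | h0
  · rcases isEmpty_or_nonempty ι with h | h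
    · rw [Cardinal.mk_eq_zero ι, Cardinal.power_zero]
      exact (Cardinal.one_le_aleph0).trans Cardinal.aleph0_le_continuum
    · rw [h0, Cardinal.zero_power (Cardinal.mk_ne_zero ι)]
      exact zero_le
  · calc #Y ^ #ι ≤ 𝔠 ^ #ι := Cardinal.power_le_power_right hY
      _ ≤ 𝔠 ^ ℵ₀ := Cardinal.power_le_power_left Cardinal.continuum_ne_zero Cardinal.mk_le_aleph0
      _ = 𝔠 := Cardinal.continuum_power_aleph0

theorem mk_prod_le_continuum (X Y : Type) (hX : #X ≤ 𝔠) (hY : #Y ≤ 𝔠) : #(X × Y) ≤ 𝔠 := by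
  rw [Cardinal.mk_prod, Cardinal.lift_id, Cardinal.lift_id]
  calc #X * #Y ≤ 𝔠 * 𝔠 := mul_le_mul' hX hY
    _ = 𝔠 := Cardinal.continuum_mul_self

theorem mk_sum_le_continuum (X Y : Type) (hX : #X ≤ 𝔠) (hY : #Y ≤ 𝔠) : #(X ⊕ Y) ≤ 𝔠 := by
  rw [Cardinal.mk_sum, Cardinal.lift_id, Cardinal.lift_id]
  calc #X + #Y ≤ 𝔠 + 𝔠 := add_le_add hX hY
    _ = 𝔠 := Cardinal.continuum_add_self

/-- The codes of the tasks. -/
abbrev Tk : Type := Set ℕ ⊕ ((Bool × (Finset (Finset ℕ) → ℕ)) ⊕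
  (Bool × (ℕ → Finset ℕ → ℝ) × (ℕ → Set ℕ) × (ℕ → ℕ → ℝ)))

theorem mk_countable_le (ι : Type) [Countable ι] : #ι ≤ 𝔠 :=
  Cardinal.mk_le_aleph0.trans Cardinal.aleph0_le_continuum

theorem mk_Tk_le : #Tk ≤ 𝔠 := by
  have hset : #(Set ℕ) ≤ 𝔠 := by
    show #(Set ℕ) ≤ _
    rw [Cardinal.mk_set, Cardinal.mk_nat, Cardinal.two_power_aleph0]
  have hreal : #ℝ ≤ 𝔠 := Cardinal.mk_real.le
  apply mk_sum_le_continuum _ _ hset
  apply mk_sum_le_continuum
  · apply mk_prod_le_continuum _ _ (mk_countable_le _)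
    exact mk_arrow_le_continuum _ _ (mk_countable_le _)
  · apply mk_prod_le_continuum _ _ (mk_countable_le _)
    apply mk_prod_le_continuum
    · exact mk_arrow_le_continuum _ _ (mk_arrow_le_continuum _ _ hreal)
    · apply mk_prod_le_continuum
      · exact mk_arrow_le_continuum _ _ hset
      · exact mk_arrow_le_continuum _ _ (mk_arrow_le_continuum _ _ hreal)

/-! ### Responses -/

/-- `J` is a candidate for the task relative to `A`. -/
def Lim (φ : ℕ → Finset ℕ → ℝ) (β : ℕ → Set ℕ) (ψ : ℕ → ℕ → ℝ) (A : Set (Set ℕ))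
    (J : Set ℕ) : Prop :=
  J.Infinite ∧ (∀ s, Null (fun n => φ n s) J) ∧
    (∀ k, (β k).Infinite → Null (fun n => ψ n k) J) ∧ ∀ Y ∈ A, Y ∉ range β → Small φ J Y

/-- What a state `q ≥ p` must do for the task. -/
def Rel : Tk → St → St → Prop
  | .inl Z, _, q => Z.Infinite → ∃ i, ∃ Y ∈ q.A i, (Y ∩ Z).Infinite
  | .inr (.inl (i, m)), p, q => (m, p.A i) ∈ q.G i
  | .inr (.inr (i, φ, β, ψ)), p, q => ContFin φ →
      (∃ J, Lim φ β ψ (p.A i) J ∧ (φ, J, p.A i) ∈ q.Q i) ∨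
      (∃ s : Finset ℕ, ∃ ε > 0, ∃ Y : ℕ → Set ℕ,
        (∀ k, Y k ∈ q.A i ∧ Y k ∉ p.A i ∧ ∀ x < k, (x ∈ Y k ↔ x ∈ s)) ∧
        ∃ J : Set ℕ, J.Infinite ∧ Null (fun n => φ n s) J ∧
          ∀ k, ∃ N, ∀ n ∈ J, N ≤ n → ∃ j₀, ∀ j ≥ j₀, ε ≤ |φ n (cut (Y k) j)|) ∨
      (¬ ∃ J, Lim φ β ψ (p.A i) J)

theorem Null.mono {f : ℕ → ℝ} {J J' : Set ℕ} (h : Null f J) (hJ : J' ⊆ J) : Null f J' :=
  fun ε hε => (h ε hε).imp fun _ hN n hn => hN n (hJ hn)

theorem Small.mono {φ : ℕ → Finset ℕ → ℝ} {J J' Y : Set ℕ} (h : Small φ J Y) (hJ : J' ⊆ J) :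
    Small φ J' Y :=
  fun ε hε => (h ε hε).imp fun _ hN n hn => hN n (hJ hn)

theorem exists_rel (t : Tk) (p : St) : ∃ q, p ≤ q ∧ Rel t p q := by
  rcases t with Z | ⟨i, m⟩ | ⟨i, φ, β, ψ⟩
  · by_cases hZ : Z.Infinite
    swap
    · exact ⟨p, le_rfl, fun h => absurd h hZ⟩
    by_cases hp : Perp Z p.all
    · obtain ⟨W, hW, hWi, -, hok⟩ := (St.ok_empty p).extend ∅ Z hZ (by rwa [union_empty])
        Set.univ (fun s Z hZ _ => ⟨∅, by simp, Z, subset_rfl, hZ, fun _ _ _ => mem_univ _⟩)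
      refine ⟨p.addSide false _ hok, p.le_addSide _ _ _, fun _ => ⟨false, (↑(∅ : Finset ℕ) ∪ W : Set ℕ), ?_, ?_⟩⟩
      · rw [St.addSide_A_self]
        exact Or.inr (mem_insert _ _)
      · apply hWi.mono
        intro x hx
        exact ⟨Or.inr hx, hW hx⟩
    · simp only [Perp, not_forall] at hp
      obtain ⟨Y, hY, hYZ⟩ := hp
      obtain ⟨i, hi⟩ := mem_iUnion.1 hY
      refine ⟨p, le_rfl, fun _ => ⟨i, Y, hi, ?_⟩⟩
      rw [inter_comm]
      exact hYZ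
  · exact ⟨p.addG i m, p.le_addG i m, p.mem_addG i m⟩
  · by_cases hc : ContFin φ
    swap
    · exact ⟨p, le_rfl, fun h => absurd h hc⟩
    by_cases hL : ∃ J, Lim φ β ψ (p.A i) J
    swap
    · exact ⟨p, le_rfl, fun _ => Or.inr (Or.inr hL)⟩
    obtain ⟨I, hI, h1, h2, h3⟩ := hL
    by_cases hv : St.Viol p φ I
    · obtain ⟨s, ε, hε, Y, hok, hag, J, hJI, hJ, hlarge⟩ := hv
      refine ⟨p.addSide i _ hok, p.le_addSide _ _ _, fun _ => Or.inr (Or.inl
        ⟨s, ε, hε, Y, ?_, J, hJ, (h1 s).mono hJI, hlarge⟩)⟩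
      intro k
      refine ⟨?_, ?_, hag k⟩
      · rw [St.addSide_A_self]
        exact Or.inr (mem_range_self k)
      · intro hk
        have := hok.adp (Y k) (mem_range_self k) (Y k) (p.A_sub_all i hk)
        rw [inter_self] at this
        exact hok.inf (Y k) (mem_range_self k) this
    · obtain ⟨F, hok, J, hJI, hJ, hfus⟩ := St.kept_of_not_viol hc h1 hI hv
      have hne : i ≠ !i := by cases i <;> simp
      have hall : ∀ ε > 0, Fus (p.addSide (!i) F hok).all (KeptE φ J ε) := by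
        rw [St.addSide_all]; exact hfus
      have hA : (p.addSide (!i) F hok).A i = p.A i := St.addSide_A_ne _ _ _ _ _ hne
      refine ⟨(p.addSide (!i) F hok).addQ i φ J hall,
        (p.le_addSide _ _ _).trans (St.le_addQ _ _ _ _ _), fun _ => Or.inl
        ⟨J, ⟨hJ, fun s => (h1 s).mono hJI, fun k hk => (h2 k hk).mono hJI,
          fun Y hY hYr => (h3 Y hY hYr).mono hJI⟩, ?_⟩⟩
      have := St.mem_addQ (p.addSide (!i) F hok) i φ J hall
      rw [hA] at this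
      exact this

/-! ### The initial state -/

/-- the `k`-th column. -/
def col (k : ℕ) : Set ℕ := range fun n => Nat.pair k n

theorem col_infinite (k : ℕ) : (col k).Infinite := by
  apply Set.infinite_range_of_injective
  intro a b h
  simpa using h

theorem col_disj {k l : ℕ} (h : k ≠ l) : col k ∩ col l = ∅ := by
  ext x
  simp only [mem_inter_iff, mem_empty_iff_false, iff_false, not_and]
  rintro ⟨a, rfl⟩ ⟨b, hb⟩
  apply h
  have := (Nat.pair_eq_pair.1 hb).1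
  exact this.symm

/-- initial state -/
def St.init : St where
  A := fun _ => range col
  G := fun _ => ∅
  Q := fun _ => ∅
  cA := fun _ => countable_range _
  cG := fun _ => countable_empty
  cQ := fun _ => countable_empty
  inf := by
    rintro _ _ ⟨k, rfl⟩
    exact col_infinite k
  ad := by
    rintro _ _ _ ⟨k, rfl⟩ _ ⟨l, rfl⟩ hne
    rw [col_disj (fun h => hne (by rw [h]))]
    exact finite_empty
  hG := by simp
  hQ := by simp
  hQ' := by simp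

/-- The families exist under CH. -/
theorem exists_fam (CH : (𝔠 : Cardinal.{0}) = ℵ₁) : ∃ A : Bool → Set (Set ℕ), Fam A := by
  obtain ⟨C, hch, hC, hinit, hrel⟩ := exists_chain St.exists_sup (T := Tk)
    (mk_Tk_le.trans CH.le) Rel exists_rel St.init
  have hdir : ∀ p ∈ C, ∀ q ∈ C, ∃ r ∈ C, p ≤ r ∧ q ≤ r := by
    intro p hp q hq
    rcases hch.total hp hq with h | h
    · exact ⟨q, hq, h, le_rfl⟩
    · exact ⟨p, hp, le_rfl, h⟩
  obtain ⟨p₀, hp₀, -⟩ := hC ∅ (empty_subset _) countable_empty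
  let A : Bool → Set (Set ℕ) := fun i => ⋃ p ∈ C, p.A i
  have memA : ∀ i Y, Y ∈ A i ↔ ∃ p ∈ C, Y ∈ p.A i := by
    intro i Y
    simp only [A, mem_iUnion, exists_prop]
  have subA : ∀ i, ∀ p ∈ C, p.A i ⊆ A i := fun i p hp Y hY => (memA i Y).2 ⟨p, hp, hY⟩
  have hcount : ∀ i, ∀ B ⊆ A i, B.Countable → ∃ p ∈ C, B ⊆ p.A i := by
    intro i B hB hBc
    have : ∀ Y, ∃ p, Y ∈ B → p ∈ C ∧ Y ∈ p.A i := by
      intro Y
      by_cases hY : Y ∈ B
      · obtain ⟨p, hp, hYp⟩ := (memA i Y).1 (hB hY)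
        exact ⟨p, fun _ => ⟨hp, hYp⟩⟩
      · exact ⟨p₀, fun h => absurd h hY⟩
    choose f hf using this
    obtain ⟨u, hu, hup⟩ := hC (f '' B) (by rintro _ ⟨Y, hY, rfl⟩; exact (hf Y hY).1)
      (hBc.image f)
    exact ⟨u, hu, fun Y hY => (hup _ ⟨Y, hY, rfl⟩ i).1 (hf Y hY).2⟩
  refine ⟨A, ?_, ?_, ?_, ?_, ?_, ?_⟩
  · intro i Y hY
    obtain ⟨p, hp, hY⟩ := (memA i Y).1 hY
    exact p.inf i Y hY
  · intro i i' Y hY Y' hY' hne
    obtain ⟨p, hp, hY⟩ := (memA i Y).1 hY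
    obtain ⟨q, hq, hY'⟩ := (memA i' Y').1 hY'
    obtain ⟨r, hr, h1, h2⟩ := hdir p hp q hq
    exact r.ad i i' Y ((h1 i).1 hY) Y' ((h2 i').1 hY') hne
  · have h1 : range col ⊆ ⋃ i, A i := by
      intro Y hY
      refine mem_iUnion.2 ⟨false, subA false p₀ hp₀ ?_⟩
      exact (hinit p₀ hp₀ false).1 hY
    apply Set.Infinite.mono h1
    apply Set.infinite_range_of_injective
    intro k l h
    by_contra hne
    have h2 := col_disj hne
    rw [h, inter_self] at h2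
    exact (col_infinite l).nonempty.ne_empty h2
  · intro Z hZ
    obtain ⟨p', hp', -, q, -, hR, p'', hp'', hq⟩ := hrel (.inl Z) p₀ hp₀
    obtain ⟨i, Y, hY, hYZ⟩ := hR hZ
    exact ⟨i, Y, subA i p'' hp'' ((hq i).1 hY), hYZ⟩
  · intro i m
    obtain ⟨p', hp', -, q, -, hR, p'', hp'', hq⟩ := hrel (.inr (.inl (i, m))) p₀ hp₀
    have hg : (m, p'.A i) ∈ p''.G i := (hq i).2.1 hR
    refine ⟨p'.A i, subA i p' hp', p'.cA i, ?_⟩
    intro E hE hE'
    have : ∃ r ∈ C, p'' ≤ r ∧ ∀ y ∈ E, y.Finite ∨ y ∈ r.A i \ p'.A i := by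
      induction E, hE using Set.Finite.induction_on with
      | empty => exact ⟨p'', hp'', le_rfl, by simp⟩
      | @insert a E ha hEf ih =>
        obtain ⟨q', hq', hpq, hqE⟩ := ih (fun y hy => hE' y (mem_insert_of_mem _ hy))
        rcases hE' a (mem_insert _ _) with h1 | ⟨h1, h2⟩
        · exact ⟨q', hq', hpq, fun y hy => (mem_insert_iff.1 hy).elim (fun h => h ▸ Or.inl h1)
            (hqE y)⟩
        · obtain ⟨r, hr, h1⟩ := (memA i a).1 h1
          obtain ⟨v, hv, hv1, hv2⟩ := hdir q' hq' r hr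
          refine ⟨v, hv, hpq.trans hv1, fun y hy => (mem_insert_iff.1 hy).elim
            (fun h => h ▸ Or.inr ⟨(hv2 i).1 h1, h2⟩) (fun hy => ?_)⟩
          rcases hqE y hy with h3 | h3
          · exact Or.inl h3
          · exact Or.inr ⟨(hv1 i).1 h3.1, h3.2⟩
    obtain ⟨r, hr, hpr, hrE⟩ := this
    exact r.hG i _ ((hpr i).2.1 hg) E hE hrE
  · intro i φ hc B hB hBc ψ
    -- enumerate B
    have hβ : ∃ β : ℕ → Set ℕ, (∀ k, (β k).Infinite → β k ∈ B) ∧ (∀ Y ∈ B, Y ∈ range β) ∧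
        ∀ Y ∈ A i, Y ∈ range β → Y ∈ B := by
      rcases B.eq_empty_or_nonempty with rfl | hne
      · refine ⟨fun _ => ∅, fun k hk => absurd hk (by simp), by simp, ?_⟩
        rintro Y hY ⟨k, rfl⟩
        obtain ⟨p, hp, hY⟩ := (memA i _).1 hY
        exact absurd (p.inf i _ hY) (by simp)
      · obtain ⟨β, rfl⟩ := hBc.exists_eq_range hne
        exact ⟨β, fun k _ => mem_range_self k, fun Y hY => hY, fun Y _ hY => hY⟩
    obtain ⟨β, hβ1, hβ2, hβ3⟩ := hβ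
    obtain ⟨p, hp, hBp⟩ := hcount i B hB hBc
    obtain ⟨p', hp', hpp', q, hp'q, hR, p'', hp'', hq⟩ :=
      hrel (.inr (.inr (i, φ, β, fun n k => ψ n (β k)))) p hp
    have hBinf : ∀ Y ∈ B, Y.Infinite := by
      intro Y hY
      exact p.inf i Y (hBp hY)
    have hconv : ∀ A' J, A' ⊆ A i → (Lim φ β (fun n k => ψ n (β k)) A' J ↔
        (J.Infinite ∧ (∀ s, Null (fun n => φ n s) J) ∧
          (∀ Y ∈ B, Null (fun n => ψ n Y) J) ∧ ∀ Y ∈ A' \ B, Small φ J Y)) := by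
      intro A' J hA'
      unfold Lim
      refine and_congr Iff.rfl (and_congr Iff.rfl (and_congr ?_ ?_))
      · constructor
        · intro h Y hY
          obtain ⟨k, rfl⟩ := hβ2 Y hY
          exact h k (hBinf _ hY)
        · intro h k hk
          exact h (β k) (hβ1 k hk)
      · constructor
        · intro h Y hY
          exact h Y hY.1 (fun hr => hY.2 (hβ3 Y (hA' hY.1) hr))
        · intro h Y hY hYr
          exact h Y ⟨hY, fun hB' => hYr (hβ2 Y hB')⟩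
    rcases hR hc with ⟨J, hJ, hJQ⟩ | ⟨s, ε, hε, Y, hY, J, hJ, hnull, hlarge⟩ | hno
    · left
      rw [hconv _ _ (subA i p' hp')] at hJ
      refine ⟨J, hJ.1, hJ.2.1, hJ.2.2.1, ?_⟩
      intro Y hY
      by_cases hYp : Y ∈ p'.A i
      · exact hJ.2.2.2 Y ⟨hYp, hY.2⟩
      · obtain ⟨r, hr, hYr⟩ := (memA i Y).1 hY.1
        obtain ⟨v, hv, hv1, hv2⟩ := hdir p'' hp'' r hr
        intro ε hε
        obtain ⟨N, hN⟩ := v.hQ i _ ((hv1 i).2.2 ((hq i).2.2 hJQ)) Y ⟨(hv2 i).1 hYr, hYp⟩ ε hε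
        exact ⟨N, fun n hn hNn => ⟨0, fun j _ => (hN n hn hNn j).le⟩⟩
    · right; left
      refine ⟨s, ε, hε, Y, ?_, J, hJ, hnull, hlarge⟩
      intro k
      refine ⟨⟨subA i p'' hp'' ((hq i).1 (hY k).1), ?_⟩, (hY k).2.2⟩
      intro hYB
      exact (hY k).2.1 ((hpp' i).1 (hBp hYB))
    · right; right
      refine ⟨p'.A i, subA i p' hp', p'.cA i, ?_⟩
      rintro ⟨J, hJ⟩
      exact hno ⟨J, (hconv _ _ (subA i p' hp')).2 hJ⟩

end Pool.Agent.H44G
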