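import Mathlib
import Pool.Agent.Lib.H44.Groth.Defs

/-!
# MP_9ba03c_gt : topological definitions
-/

namespace Pool.Agent.H44G

open Set Filter Topology

/-- `C_p(X)`: continuous real functions with the topology of pointwise convergence. -/
abbrev Cp (X : Type*) [TopologicalSpace X] : Type _ := {f : X → ℝ // Continuous f}

/-- `A` is countably compact in `Z`. -/
def CountablyCompactIn {Z : Type*} [TopologicalSpace Z] (A : Set Z) : Prop :=
  ∀ B ⊆ A, B.Infinite → ∃ z : Z, AccPt z (𝓟 B)

/-- g-spaces. -/
def IsGSpace (Z : Type*) [TopologicalSpace Z] : Prop :=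
  ∀ A : Set Z, CountablyCompactIn A → IsCompact (closure A)

/-- Grothendieck spaces. -/
def IsGrothendieck (X : Type*) [TopologicalSpace X] : Prop :=
  ∀ S : Set (Cp X), IsGSpace S

/-- The points of the space attached to a family `A`: finite sets and members of `A`. -/
def Sp (A : Set (Set ℕ)) : Type := {x : Set ℕ // x.Finite ∨ x ∈ A}

namespace Sp

variable {A : Set (Set ℕ)}

open Classical in
/-- coordinates: membership of `n`, and the indicators of the points of `A`. -/
noncomputable def emb (x : Sp A) : ℕ ⊕ A → Bool
  | .inl n => decide (n ∈ x.1)
  | .inr Y => decide (x.1 = Y.1)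

/-- The topology: induced from `2^(ω ⊕ A)`; the points of `A` are isolated, a finite set has its
neighbourhoods from `2^ω`. -/
noncomputable instance : TopologicalSpace (Sp A) := TopologicalSpace.induced emb inferInstance

theorem isEmbedding_emb : IsEmbedding (emb : Sp A → _) where
  eq_induced := rfl
  injective x y h := by
    apply Subtype.ext
    ext n
    have := congrFun h (.inl n)
    simpa [emb] using this

instance : T35Space (Sp A) := isEmbedding_emb.t35Space

end Sp

end Pool.Agent.H44G
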