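import Mathlib
import Pool.Agent.Lib.H44.Groth.TDefs

/-!
# MP_9ba03c_gt, chunk T2 : `Sp A` is a Grothendieck space

Paper proof.  Write `X = Sp A`, `Fin` for its finite points.

(0) A neighbourhood of a finite point `s` in `X` contains `{x | ∀ i < m, i ∈ x ↔ i ∈ s}` for some
`m` (finitely many `ind`-coordinates can be killed by enlarging `m`, because `Y ≠ s` for `Y ∈ A`
infinite).  Points of `A` are isolated.

(1) Tightness.  If `P ⊆ C_p(X)` and `0 ∈ closure P` then `0 ∈ closure P'` for a countable `P' ⊆ P`.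
For a finite `F₁ ⊆ A` and `k` choose for each finite `F ⊆ Fin` a `g ∈ P` with `|g| < 1/(k+1)` on
`F ∪ F₁` and `m F` with `|g| < 1/(k+1)` at all `x` which agree with some `s ∈ F` below `m F`.
`Conc` gives a countable `base F₁ k`.  Let `B ⊆ A` be countable with `base F₁ k ⊆ B` for all finite
`F₁ ⊆ B` and all `k`.  The countably many chosen `g` (for `F₁ ⊆ B`) form `P'`: for a finite `E ⊆ X` put
`F₁ = E ∩ B` and apply the property of `base F₁ k` to `E \ B`.

(2) Let `M ⊆ C_p(X)` be compact.  Then `M` is Fréchet–Urysohn: let `P ⊆ M`, `f ∈ closure P`,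
`f ∉ P`; by (1) (applied to `P - f`) there are `g n ∈ P` with `f ∈ closure {g n}`.
Put `d n = g n - f`; every neighbourhood of `0` contains `d n` for infinitely many `n`.
Put `φ n s = d n s` (`s` finite), `ψ n Y = d n Y`.  `ContFin φ` by (0).
Base: for each `n, k` apply `Conc` to `m F = max over s ∈ F of` an `m` with
`|d n x - d n s| ≤ 1/(k+1)` for all `x` agreeing with `s` below `m`; let `B` be the union of the
countably many bases.  For `Y ∈ A \ B` and all `n`: `d n (cut Y j) → d n Y` as `j → ∞` (`E = {Y}`).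
Now `Task`:
* case 1: `d n → 0` pointwise on `X` along `J`, i.e. `g n → f` along `J`.
* case 2: `Y k → s` in `X`, `|d n (Y k)| ≥ ε` for almost all `n ∈ J`, `d n s → 0` along `J`.
  Let `U` be an ultrafilter containing `J` and the cofinite sets; `g` has a limit `h ∈ M` along `U`
  (`M` compact); `h - f` is continuous, vanishes at `s` and has absolute value `≥ ε` at all `Y k`,
  contradiction.
* case 3: impossible: since `Fin ∪ B ∪ B'` is countable there is a `J` (diagonal choice) with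
  `d n → 0` along `J` at all points of `Fin ∪ B ∪ B'`.

(3) Grothendieck.  Let `S ⊆ C_p(X)` and `P ⊆ S` countably compact in `S`.
(a) `P` is pointwise bounded, so its closure `M` in `X → ℝ` is compact.
(b) every `f ∈ M` is continuous: at points of `A` trivially; at `s ∈ Fin` suppose not: there are
`x j → s` with `|f (x j) - f s| ≥ ε`.  Choose `p n ∈ P` with `|p n - f| < 1/(n+1)` at
`s, x 0, …, x n`.  `{p n}` has an accumulation point `q ∈ S` (or is finite, then `q` = a value taken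
infinitely often), `q = f` on `{s} ∪ {x j}`, `q` continuous, contradiction.
(c) So the closure `M` of `P` in `C_p(X)` is compact, hence FU by (2).  For `f ∈ M` there is a
sequence in `P` converging to `f`; its accumulation point in `S` (countable compactness) must be `f`.
So `f ∈ S` and the closure of `P` in `S` is `M`, compact.
-/

namespace Pool.Agent.H44G

open Set Filter Topology

/-! ### Generic facts on cluster points -/

theorem exists_mapClusterPt_of_ccin {Z : Type*} [TopologicalSpace Z] [T1Space Z] {A : Set Z}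
    (h : CountablyCompactIn A) (p : ℕ → Z) (hp : ∀ n, p n ∈ A) : ∃ z, MapClusterPt z atTop p := by
  rcases (range p).finite_or_infinite with hf | hi
  · obtain ⟨z, _, hz⟩ := hf.isCompact.exists_mapClusterPt (f := atTop) (u := p)
      (tendsto_principal.2 (Eventually.of_forall fun n => mem_range_self n))
    exact ⟨z, hz⟩
  · obtain ⟨z, hz⟩ := h (range p) (by rintro _ ⟨n, rfl⟩; exact hp n) hi
    refine ⟨z, ?_⟩
    rw [mapClusterPt_iff_frequently]
    intro s hs hnot
    obtain ⟨N, hN⟩ := eventually_atTop.1 hnot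
    have hfin : (p '' {n | n < N} \ {z}).Finite := ((finite_lt_nat N).image p).subset sdiff_subset
    have hU : s \ (p '' {n | n < N} \ {z}) ∈ 𝓝 z := by
      refine inter_mem hs ?_
      exact hfin.isClosed.isOpen_compl.mem_nhds (by simp)
    rw [accPt_iff_nhds] at hz
    obtain ⟨y, ⟨⟨hy1, hy2⟩, n, rfl⟩, hyz⟩ := hz _ hU
    rcases lt_or_ge n N with hn | hn
    · exact hy2 ⟨⟨n, hn, rfl⟩, hyz⟩
    · exact hN n hn hy1

/-! ### `C_p(X)` -/

section Cp

variable {X : Type*} [TopologicalSpace X]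

theorem Cp.isInducing : IsInducing (Subtype.val : Cp X → X → ℝ) := ⟨rfl⟩

theorem Cp.continuous_eval (x : X) : Continuous fun f : Cp X => f.1 x :=
  (continuous_apply x).comp continuous_subtype_val

theorem Cp.tendsto_iff {ι : Type*} {F : Filter ι} {u : ι → Cp X} {f : Cp X} :
    Tendsto u F (𝓝 f) ↔ ∀ x, Tendsto (fun i => (u i).1 x) F (𝓝 (f.1 x)) := by
  rw [tendsto_subtype_rng, tendsto_pi_nhds]

omit [TopologicalSpace X] in
theorem pi_mem_closure_iff {P : Set (X → ℝ)} {f : X → ℝ} :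
    f ∈ closure P ↔ ∀ E : Set X, E.Finite → ∀ ε > 0, ∃ g ∈ P, ∀ x ∈ E, |g x - f x| < ε := by
  constructor
  · intro h E hE ε hε
    have hU : {g : X → ℝ | ∀ x ∈ E, |g x - f x| < ε} ∈ 𝓝 f := by
      have : {g : X → ℝ | ∀ x ∈ E, |g x - f x| < ε} = ⋂ x ∈ E, {g | |g x - f x| < ε} := by
        ext g; simp
      rw [this, biInter_mem hE]
      intro x _
      have hc : Continuous fun g : X → ℝ => |g x - f x| := by fun_prop
      exact (isOpen_lt hc continuous_const).mem_nhds (by simpa using hε)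
    obtain ⟨g, hg, hgP⟩ := mem_closure_iff_nhds.1 h _ hU
    exact ⟨g, hgP, hg⟩
  · intro h
    rw [mem_closure_iff_nhds]
    intro U hU
    rw [nhds_pi, Filter.mem_pi] at hU
    obtain ⟨I, hI, t, ht, hsub⟩ := hU
    have h1 : ∀ i, ∃ ε > 0, Metric.ball (f i) ε ⊆ t i := fun i => Metric.mem_nhds_iff.1 (ht i)
    choose e he hb using h1
    obtain ⟨ε, hε, hε'⟩ : ∃ ε > 0, ∀ i ∈ I, ε ≤ e i := by
      rcases I.eq_empty_or_nonempty with rfl | hne
      · exact ⟨1, one_pos, by simp⟩
      · obtain ⟨i0, hi0, hmin⟩ := Set.exists_min_image I e hI hne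
        exact ⟨e i0, he i0, hmin⟩
    obtain ⟨g, hgP, hg⟩ := h I hI ε hε
    refine ⟨g, hsub ?_, hgP⟩
    intro i hi
    apply hb i
    rw [Metric.mem_ball, Real.dist_eq]
    exact (hg i hi).trans_le (hε' i hi)

theorem Cp.mem_closure_iff {P : Set (Cp X)} {f : Cp X} :
    f ∈ closure P ↔ ∀ E : Set X, E.Finite → ∀ ε > 0, ∃ g ∈ P, ∀ x ∈ E, |g.1 x - f.1 x| < ε := by
  rw [Cp.isInducing.closure_eq_preimage_closure_image, mem_preimage, pi_mem_closure_iff]
  simp only [mem_image, exists_exists_and_eq_and]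

/-- Frechet-Urysohn compacta in `C_p(X)` and sequentiality of `X` give the Grothendieck
property. -/
theorem isGrothendieck_of_FU [SequentialSpace X]
    (hFU : ∀ M : Set (Cp X), IsCompact M → ∀ P ⊆ M, ∀ f ∈ closure P,
      ∃ u : ℕ → Cp X, (∀ n, u n ∈ P) ∧ Tendsto u atTop (𝓝 f)) : IsGrothendieck X := by
  intro S P hP
  -- a cluster point of a sequence in `P`
  have hcl : ∀ p : ℕ → S, (∀ n, p n ∈ P) → ∃ z : S, ∃ U : Ultrafilter ℕ, ↑U ≤ (atTop : Filter ℕ) ∧
      ∀ x, Tendsto (fun n => (p n).1.1 x) U (𝓝 (z.1.1 x)) := by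
    intro p hp
    obtain ⟨z, hz⟩ := exists_mapClusterPt_of_ccin hP p hp
    rw [mapClusterPt_iff_ultrafilter] at hz
    obtain ⟨U, hU, hz⟩ := hz
    refine ⟨z, U, hU, ?_⟩
    rw [tendsto_subtype_rng, Cp.tendsto_iff] at hz
    exact hz
  set P₁ : Set (Cp X) := Subtype.val '' P with hP₁
  -- (a) pointwise bounded
  have ha : ∀ x, ∃ b : ℝ, ∀ p ∈ P, |p.1.1 x| ≤ b := by
    intro x
    by_contra hcon
    push Not at hcon
    choose p hp hpx using fun n : ℕ => hcon n
    obtain ⟨z, U, hU, hz⟩ := hcl p hp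
    have h1 : ∀ᶠ n in (U : Filter ℕ), |(p n).1.1 x| < |z.1.1 x| + 1 :=
      (hz x).abs.eventually (gt_mem_nhds (lt_add_one _))
    have h2 : ∀ᶠ n : ℕ in (U : Filter ℕ), |z.1.1 x| + 1 ≤ (n : ℝ) :=
      hU (tendsto_natCast_atTop_atTop.eventually_ge_atTop _)
    obtain ⟨n, h3, h4⟩ := (h1.and h2).exists
    linarith [hpx n]
  choose b hb using ha
  -- (b) members of the closure in the product are continuous
  have hcont : ∀ f ∈ closure (Subtype.val '' P₁ : Set (X → ℝ)), Continuous f := by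
    intro f hf
    apply SeqContinuous.continuous
    intro x s hx
    have hex : ∀ n : ℕ, ∃ p ∈ P, |p.1.1 s - f s| < 1 / ((n : ℝ) + 1) ∧
        ∀ i ≤ n, |p.1.1 (x i) - f (x i)| < 1 / ((n : ℝ) + 1) := by
      intro n
      obtain ⟨g, ⟨_, ⟨p, hp, rfl⟩, rfl⟩, hg⟩ := (pi_mem_closure_iff.1 hf) (insert s (x '' {i | i ≤ n}))
        (((finite_le_nat n).image x).insert s) (1 / ((n : ℝ) + 1)) (by positivity)
      exact ⟨p, hp, hg s (mem_insert _ _), fun i hi => hg _ (mem_insert_of_mem _ ⟨i, hi, rfl⟩)⟩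
    choose p hp hps hpx using hex
    obtain ⟨z, U, hU, hz⟩ := hcl p hp
    have h0 : Tendsto (fun n : ℕ => 1 / ((n : ℝ) + 1)) U (𝓝 0) :=
      tendsto_one_div_add_atTop_nhds_zero_nat.mono_left hU
    have hzs : z.1.1 s = f s := by
      have h1 : Tendsto (fun n => (p n).1.1 s - f s) U (𝓝 0) :=
        squeeze_zero_norm (fun n => by rw [Real.norm_eq_abs]; exact (hps n).le) h0
      have h2 := (hz s).sub_const (f s)
      linarith [tendsto_nhds_unique h1 h2]
    have hzx : ∀ i, z.1.1 (x i) = f (x i) := by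
      intro i
      have h1 : Tendsto (fun n => (p n).1.1 (x i) - f (x i)) U (𝓝 0) := by
        refine squeeze_zero_norm' ?_ h0
        have : ∀ᶠ n in (U : Filter ℕ), i ≤ n := hU (eventually_ge_atTop i)
        filter_upwards [this] with n hn
        rw [Real.norm_eq_abs]
        exact (hpx n i hn).le
      have h2 := (hz (x i)).sub_const (f (x i))
      linarith [tendsto_nhds_unique h1 h2]
    have h3 : Tendsto (fun i => z.1.1 (x i)) atTop (𝓝 (z.1.1 s)) := (z.1.2.tendsto s).comp hx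
    rw [hzs] at h3
    refine h3.congr fun i => hzx i
  -- the closure of `P₁` in `C_p(X)` is compact
  have hM : IsCompact (closure P₁) := by
    rw [Cp.isInducing.isCompact_iff]
    have h1 : Subtype.val '' closure P₁ = closure (Subtype.val '' P₁ : Set (X → ℝ)) := by
      rw [Cp.isInducing.closure_eq_preimage_closure_image P₁, image_preimage_eq_inter_range]
      apply inter_eq_left.2
      intro f hf
      exact ⟨⟨f, hcont f hf⟩, rfl⟩
    rw [h1]
    have h2 : IsCompact (Set.univ.pi fun x => Icc (-(b x)) (b x)) :=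
      isCompact_univ_pi fun x => isCompact_Icc
    refine h2.of_isClosed_subset isClosed_closure (closure_minimal ?_ h2.isClosed)
    rintro _ ⟨_, ⟨p, hp, rfl⟩, rfl⟩
    intro x _
    exact abs_le.1 (hb x p hp)
  -- (c)
  have hMS : closure P₁ ⊆ S := by
    intro f hf
    obtain ⟨u, hu, huf⟩ := hFU _ hM P₁ subset_closure f hf
    choose p hp hpu using hu
    obtain ⟨z, U, hU, hz⟩ := hcl p hp
    have h1 : Tendsto u U (𝓝 z.1) := by
      rw [Cp.tendsto_iff]
      intro x
      simpa only [hpu] using hz x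
    have h2 : f = z.1 := tendsto_nhds_unique (huf.mono_left hU) h1
    rw [h2]
    exact z.2
  rw [IsInducing.subtypeVal.isCompact_iff]
  have h3 : Subtype.val '' closure P = closure P₁ := by
    rw [IsInducing.subtypeVal.closure_eq_preimage_closure_image P, image_preimage_eq_inter_range]
    apply inter_eq_left.2
    rw [Subtype.range_coe]
    exact hMS
  rw [h3]
  exact hM

end Cp


/-! ### The space `Sp A` -/

namespace Sp

variable {A : Set (Set ℕ)}

/-- The finite point given by `s`. -/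
def fin (s : Finset ℕ) : Sp A := ⟨(s : Set ℕ), Or.inl s.finite_toSet⟩

/-- The set of points which agree with `s` below `m`. -/
def nb (s : Finset ℕ) (m : ℕ) : Set (Sp A) := {x | ∀ i < m, (i ∈ x.1 ↔ i ∈ s)}

theorem continuous_emb : Continuous (emb : Sp A → _) := isEmbedding_emb.continuous

theorem continuous_coord (c : ℕ ⊕ A) : Continuous fun y : Sp A => emb y c :=
  (continuous_apply c).comp continuous_emb

theorem isOpen_singleton_of_mem {x : Sp A} (h : x.1 ∈ A) : IsOpen ({x} : Set (Sp A)) := by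
  have h1 : ({x} : Set (Sp A)) = (fun y : Sp A => emb y (.inr ⟨x.1, h⟩)) ⁻¹' {true} := by
    ext y
    simp only [mem_singleton_iff, mem_preimage, emb, decide_eq_true_eq]
    exact ⟨fun h => by rw [h], fun h => Subtype.ext h⟩
  rw [h1]
  exact (isOpen_discrete _).preimage (continuous_coord _)

theorem isOpen_nb (s : Finset ℕ) (m : ℕ) : IsOpen (nb s m : Set (Sp A)) := by
  have h1 : (nb s m : Set (Sp A)) =
      ⋂ i ∈ {i | i < m}, (fun y : Sp A => emb y (.inl i)) ⁻¹' {decide (i ∈ s)} := by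
    ext y
    simp only [nb, mem_iInter, mem_ofPred_eq, mem_preimage, mem_singleton_iff, emb, decide_eq_decide]
  rw [h1]
  exact (finite_lt_nat m).isOpen_biInter fun i _ =>
    (isOpen_discrete _).preimage (continuous_coord _)

theorem fin_mem_nb (s : Finset ℕ) (m : ℕ) : (fin s : Sp A) ∈ nb s m := by
  intro i _
  simp [fin]

theorem nb_mono {s : Finset ℕ} {m m' : ℕ} (h : m ≤ m') : (nb s m' : Set (Sp A)) ⊆ nb s m :=
  fun _ hx i hi => hx i (hi.trans_le h)

theorem exists_nb_subset (hinf : ∀ Y ∈ A, Y.Infinite) {s : Finset ℕ} {O : Set (Sp A)}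
    (hO : O ∈ 𝓝 (fin s : Sp A)) : ∃ m, nb s m ⊆ O := by
  rw [isEmbedding_emb.nhds_eq_comap, mem_comap] at hO
  obtain ⟨W, hW, hWO⟩ := hO
  rw [nhds_pi, Filter.mem_pi] at hW
  obtain ⟨I, hI, t, ht, hsub⟩ := hW
  -- for each coordinate a bound
  have hb : ∀ c : ℕ ⊕ A, ∃ m : ℕ, ∀ x ∈ (nb s m : Set (Sp A)), emb x c = emb (fin s : Sp A) c := by
    rintro (n | Y)
    · refine ⟨n + 1, fun x hx => ?_⟩
      simp only [emb, decide_eq_decide]
      rw [hx n (Nat.lt_succ_self n)]
      simp [fin]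
    · obtain ⟨i, hiY, his⟩ := (hinf Y.1 Y.2).exists_notMem_finset s
      refine ⟨i + 1, fun x hx => ?_⟩
      simp only [emb, decide_eq_decide]
      constructor
      · intro h
        exact absurd ((hx i (Nat.lt_succ_self i)).1 (by rw [h]; exact hiY)) his
      · intro h
        exfalso
        apply hinf Y.1 Y.2
        rw [← h]
        exact s.finite_toSet
  choose m hm using hb
  obtain ⟨N, hN⟩ : ∃ N, ∀ c ∈ I, m c ≤ N := by
    obtain ⟨N, hN⟩ := (hI.image m).bddAbove
    exact ⟨N, fun c hc => hN ⟨c, hc, rfl⟩⟩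
  refine ⟨N, fun x hx => hWO (hsub ?_)⟩
  intro c hc
  rw [hm c x (nb_mono (hN c hc) hx)]
  exact mem_of_mem_nhds (ht c)

theorem eq_fin_or (x : Sp A) : (∃ s : Finset ℕ, x = fin s) ∨ x.1 ∈ A := by
  rcases x.2 with h | h
  · left
    refine ⟨h.toFinset, Subtype.ext ?_⟩
    simp [fin]
  · exact Or.inr h

theorem firstCountable (hinf : ∀ Y ∈ A, Y.Infinite) : FirstCountableTopology (Sp A) := by
  refine ⟨fun x => ?_⟩
  rcases eq_fin_or x with ⟨s, rfl⟩ | h
  · refine isCountablyGenerated_of_seq ⟨fun m => nb s m, ?_⟩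
    apply le_antisymm
    · refine le_iInf fun m => le_principal_iff.2 ((isOpen_nb s m).mem_nhds (fin_mem_nb s m))
    · intro O hO
      obtain ⟨m, hm⟩ := exists_nb_subset hinf hO
      exact mem_iInf_of_mem m (mem_principal.2 hm)
  · rw [(isOpen_singleton_iff_nhds_eq_pure x).1 (isOpen_singleton_of_mem h)]
    infer_instance

/-- continuity at a finite point, strict form -/
theorem exists_nb_lt (hinf : ∀ Y ∈ A, Y.Infinite) {g : Sp A → ℝ} (hg : Continuous g)
    {s : Finset ℕ} {ε : ℝ} (h : |g (fin s)| < ε) : ∃ m, ∀ x ∈ (nb s m : Set (Sp A)), |g x| < ε :=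
  exists_nb_subset hinf ((isOpen_lt hg.abs continuous_const).mem_nhds h)

theorem exists_nb_sub_lt (hinf : ∀ Y ∈ A, Y.Infinite) {g : Sp A → ℝ} (hg : Continuous g)
    (s : Finset ℕ) {ε : ℝ} (h : 0 < ε) :
    ∃ m, ∀ x ∈ (nb s m : Set (Sp A)), |g x - g (fin s)| < ε := by
  refine exists_nb_subset hinf ((isOpen_lt (hg.sub continuous_const).abs continuous_const).mem_nhds ?_)
  simpa using h


theorem countable_finset_subset {α : Type*} {B : Set α} (h : B.Countable) :
    {F : Finset α | ↑F ⊆ B}.Countable := by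
  have h1 : {F : Finset α | ↑F ⊆ B} = (fun F : Finset α => (F : Set α)) ⁻¹' {t | t.Finite ∧ t ⊆ B} := by
    ext F; simp
  rw [h1]
  exact (countable_ofPred_finite_subset h).preimage_of_injOn Finset.coe_injective.injOn

/-- Tightness of `C_p`. -/
theorem mem_closure_countable (hinf : ∀ Y ∈ A, Y.Infinite) (hc : Conc A) {P : Set (Cp (Sp A))}
    {f : Cp (Sp A)} (hf : f ∈ closure P) : ∃ P' ⊆ P, P'.Countable ∧ f ∈ closure P' := by
  -- choice of functions and of moduli
  have h1 : ∀ (F₁ : Finset (Set ℕ)) (k : ℕ) (F : Finset (Finset ℕ)), ∃ g ∈ P,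
      (∀ x : Sp A, x.1 ∈ F₁ → |g.1 x - f.1 x| < 1 / ((k : ℝ) + 1)) ∧
      ∃ m : ℕ, ∀ s ∈ F, ∀ x ∈ (nb s m : Set (Sp A)), |g.1 x - f.1 x| < 1 / ((k : ℝ) + 1) := by
    intro F₁ k F
    have hE : ({x : Sp A | x.1 ∈ F₁} ∪ (fin '' (F : Set (Finset ℕ)) : Set (Sp A))).Finite := by
      refine Finite.union ?_ (F.finite_toSet.image _)
      exact F₁.finite_toSet.preimage (Subtype.val_injective.injOn)
    obtain ⟨g, hg, hgE⟩ := Cp.mem_closure_iff.1 hf _ hE (1 / ((k : ℝ) + 1)) (by positivity)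
    refine ⟨g, hg, fun x hx => hgE x (Or.inl hx), ?_⟩
    have h2 : ∀ s : Finset ℕ, ∃ m : ℕ, s ∈ F → ∀ x ∈ (nb s m : Set (Sp A)),
        |g.1 x - f.1 x| < 1 / ((k : ℝ) + 1) := by
      intro s
      by_cases hs : s ∈ F
      · obtain ⟨m, hm⟩ := exists_nb_lt hinf (g := fun x => g.1 x - f.1 x) (g.2.sub f.2) (s := s)
          (hgE (fin s) (Or.inr ⟨s, hs, rfl⟩))
        exact ⟨m, fun _ => hm⟩
      · exact ⟨0, fun h => absurd h hs⟩
    choose m hm using h2
    refine ⟨F.sup m, fun s hs x hx => hm s hs x (nb_mono (Finset.le_sup hs) hx)⟩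
  choose g hgP hgF m hm using h1
  -- bases
  have h2 := fun (F₁ : Finset (Set ℕ)) (k : ℕ) => hc (m F₁ k)
  choose b hbA hbc hb using h2
  -- closing off
  let step : Set (Set ℕ) → Set (Set ℕ) := fun B =>
    B ∪ ⋃ F₁ ∈ {F₁ : Finset (Set ℕ) | ↑F₁ ⊆ B}, ⋃ k, b F₁ k
  let B : ℕ → Set (Set ℕ) := fun n => step^[n] ∅
  have hBs : ∀ n, B (n + 1) = step (B n) := fun n => Function.iterate_succ_apply' _ _ _
  have hBc : ∀ n, (B n).Countable := by
    intro n
    induction n with
    | zero => exact countable_empty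
    | succ n ih =>
      rw [hBs]
      refine ih.union (Countable.biUnion ?_ fun F₁ _ => countable_iUnion fun k => hbc F₁ k)
      exact countable_finset_subset ih
  have hBmono : Monotone B := monotone_nat_of_le_succ fun n => by
    rw [hBs]; exact subset_union_left
  set BB : Set (Set ℕ) := ⋃ n, B n with hBB
  have hBBc : BB.Countable := countable_iUnion hBc
  have hclosed : ∀ F₁ : Finset (Set ℕ), ↑F₁ ⊆ BB → ∀ k, b F₁ k ⊆ BB := by
    intro F₁ hF₁ k
    obtain ⟨n, hn⟩ : ∃ n, ↑F₁ ⊆ B n := by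
      have h3 : ∀ y ∈ F₁, ∃ n, y ∈ B n := fun y hy => mem_iUnion.1 (hF₁ hy)
      choose! N hN using h3
      exact ⟨F₁.sup N, fun y hy => hBmono (Finset.le_sup hy) (hN y hy)⟩
    refine subset_trans ?_ (subset_iUnion B (n + 1))
    rw [hBs]
    refine subset_union_of_subset_right ?_ _
    exact subset_trans (subset_iUnion _ k) (subset_biUnion_of_mem (u := fun F₁ => ⋃ k, b F₁ k) hn)
  refine ⟨{h | ∃ F₁ : Finset (Set ℕ), ↑F₁ ⊆ BB ∧ ∃ k F, h = g F₁ k F}, ?_, ?_, ?_⟩
  · rintro _ ⟨F₁, _, k, F, rfl⟩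
    exact hgP F₁ k F
  · have h3 : {h | ∃ F₁ : Finset (Set ℕ), ↑F₁ ⊆ BB ∧ ∃ k F, h = g F₁ k F} =
        ⋃ F₁ ∈ {F₁ : Finset (Set ℕ) | ↑F₁ ⊆ BB}, ⋃ k, ⋃ F, {g F₁ k F} := by
      ext h; simp [eq_comm]
    rw [h3]
    exact Countable.biUnion (countable_finset_subset hBBc) fun F₁ _ => countable_iUnion fun k =>
      countable_iUnion fun F => countable_singleton _
  · rw [Cp.mem_closure_iff]
    intro E hE ε hε
    obtain ⟨k, hk⟩ := exists_nat_one_div_lt hε
    classical
    let F₁ : Finset (Set ℕ) := (hE.image Subtype.val).toFinset.filter (· ∈ BB)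
    have hF₁ : ↑F₁ ⊆ BB := by
      intro y hy
      simp only [F₁, Finset.coe_filter] at hy
      exact hy.2
    obtain ⟨F, hF⟩ := hb F₁ k ((Subtype.val '' E) \ BB) ((hE.image _).subset sdiff_subset) (by
      rintro _ ⟨⟨x, hx, rfl⟩, hxB⟩
      rcases x.2 with h | h
      · exact Or.inl h
      · exact Or.inr ⟨h, fun h' => hxB (hclosed F₁ hF₁ k h')⟩)
    refine ⟨g F₁ k F, ⟨F₁, hF₁, k, F, rfl⟩, fun x hx => ?_⟩
    by_cases hxB : x.1 ∈ BB
    · refine (hgF F₁ k F x ?_).trans hk
      simp only [F₁, Finset.mem_filter, Finite.mem_toFinset]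
      exact ⟨⟨x, hx, rfl⟩, hxB⟩
    · obtain ⟨s, hs, hs'⟩ := hF x.1 ⟨⟨x, hx, rfl⟩, hxB⟩
      exact (hm F₁ k F s hs x hs').trans hk

/-- membership of the initial parts of `Y` in the neighbourhoods of finite points. -/
theorem fin_cut_mem_nb {Y : Set ℕ} {s : Finset ℕ} {m j : ℕ} (hj : m ≤ j)
    (h : ∀ x < m, (x ∈ Y ↔ x ∈ s)) : (fin (cut Y j) : Sp A) ∈ nb s m := by
  intro i hi
  have h1 : i ∈ cut Y j ↔ i ∈ Y := by
    rw [mem_cut]
    exact and_iff_right (hi.trans_le hj)
  simp only [fin, Finset.mem_coe]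
  rw [h1]
  exact h i hi

/-- The Frechet-Urysohn property of the compact subsets of `C_p(Sp A)`. -/
theorem exists_seq_tendsto (hinf : ∀ Y ∈ A, Y.Infinite) (hc : Conc A) (ht : Task A)
    (M : Set (Cp (Sp A))) (hM : IsCompact M) (P : Set (Cp (Sp A))) (hPM : P ⊆ M)
    (f : Cp (Sp A)) (hf : f ∈ closure P) :
    ∃ u : ℕ → Cp (Sp A), (∀ n, u n ∈ P) ∧ Tendsto u atTop (𝓝 f) := by
  by_cases hfP : f ∈ P
  · exact ⟨fun _ => f, fun _ => hfP, tendsto_const_nhds⟩
  obtain ⟨P', hP'P, hP'c, hfP'⟩ := mem_closure_countable hinf hc hf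
  have hne : P'.Nonempty := closure_nonempty_iff.1 ⟨f, hfP'⟩
  obtain ⟨g, hg⟩ := hP'c.exists_eq_range hne
  have hgP : ∀ n, g n ∈ P := fun n => hP'P (by rw [hg]; exact mem_range_self n)
  -- infinitely many `g n` are near `f` on a given finite set
  have hfreq : ∀ E : Set (Sp A), E.Finite → ∀ ε > 0, ∀ N, ∃ n ≥ N, ∀ x ∈ E,
      |(g n).1 x - f.1 x| < ε := by
    intro E hE ε hε N
    have h1 : f ∈ closure (P' \ (g '' {n | n < N})) := by
      have hfin : (g '' {n | n < N}).Finite := (finite_lt_nat N).image g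
      have h2 : f ∈ closure (P' \ (g '' {n | n < N}) ∪ (g '' {n | n < N})) :=
        closure_mono (by intro x hx; by_cases h : x ∈ g '' {n | n < N}; exacts [Or.inr h, Or.inl ⟨hx, h⟩]) hfP'
      rw [closure_union, hfin.isClosed.closure_eq] at h2
      rcases h2 with h2 | ⟨n, _, h2⟩
      · exact h2
      · exact absurd (h2 ▸ hgP n) hfP
    obtain ⟨h, ⟨hh1, hh2⟩, hh3⟩ := Cp.mem_closure_iff.1 h1 E hE ε hε
    rw [hg] at hh1
    obtain ⟨n, rfl⟩ := hh1
    refine ⟨n, ?_, hh3⟩
    by_contra hn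
    exact hh2 ⟨n, not_le.1 hn, rfl⟩
  -- the differences
  let d : ℕ → Sp A → ℝ := fun n x => (g n).1 x - f.1 x
  have hdc : ∀ n, Continuous (d n) := fun n => (g n).2.sub f.2
  let φ : ℕ → Finset ℕ → ℝ := fun n s => d n (fin s)
  classical
  let ψ : ℕ → Set ℕ → ℝ := fun n Y => if h : Y ∈ A then d n ⟨Y, Or.inr h⟩ else 0
  have hψ : ∀ n (x : Sp A), x.1 ∈ A → ψ n x.1 = d n x := by
    intro n x hx
    simp only [ψ, dif_pos hx]
    rfl
  have hφc : ContFin φ := by
    intro n t ε hε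
    obtain ⟨m, hm⟩ := exists_nb_sub_lt hinf (hdc n) t hε
    refine ⟨m, fun u hu => (hm (fin (t ∪ u)) ?_).le⟩
    intro i hi
    simp only [fin, Finset.mem_coe, Finset.mem_union]
    constructor
    · rintro (h | h)
      · exact h
      · exact absurd hi (not_lt.2 (hu i h))
    · exact Or.inl
  -- the countable set outside which the `d n` are limits of their values at initial parts
  have h1 : ∀ (n k : ℕ) (s : Finset ℕ), ∃ m, ∀ x ∈ (nb s m : Set (Sp A)),
      |d n x - d n (fin s)| < 1 / ((k : ℝ) + 1) :=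
    fun n k s => exists_nb_sub_lt hinf (hdc n) s (by positivity)
  choose m hm using h1
  choose b hbA hbc hb using fun n k : ℕ => hc (fun F => F.sup (m n k))
  set B : Set (Set ℕ) := ⋃ n, ⋃ k, b n k with hB
  have hBA : B ⊆ A := iUnion_subset fun n => iUnion_subset fun k => hbA n k
  have hBc : B.Countable := countable_iUnion fun n => countable_iUnion fun k => hbc n k
  have hlim : ∀ n (x : Sp A), x.1 ∈ A → x.1 ∉ B →
      Tendsto (fun j => d n (fin (cut x.1 j))) atTop (𝓝 (d n x)) := by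
    intro n x hxA hxB
    rw [Metric.tendsto_atTop]
    intro ε hε
    obtain ⟨k, hk⟩ := exists_nat_one_div_lt (half_pos hε)
    obtain ⟨F, hF⟩ := hb n k {x.1} (finite_singleton _) (by
      rintro _ rfl
      exact Or.inr ⟨hxA, fun h => hxB (mem_iUnion.2 ⟨n, mem_iUnion.2 ⟨k, h⟩⟩)⟩)
    obtain ⟨s, hs, hs'⟩ := hF x.1 rfl
    have hms : m n k s ≤ F.sup (m n k) := Finset.le_sup hs
    refine ⟨F.sup (m n k), fun j hj => ?_⟩
    have h2 := hm n k s x (fun i hi => hs' i (hi.trans_le hms))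
    have h3 := hm n k s (fin (cut x.1 j)) (fin_cut_mem_nb (hms.trans hj)
      fun i hi => hs' i (hi.trans_le hms))
    rw [Real.dist_eq]
    rw [abs_lt] at h2 h3 ⊢
    constructor <;> linarith [h2.1, h2.2, h3.1, h3.2]
  -- a subsequence tending to `f` at countably many given points
  have hdiag : ∀ t : ℕ → Sp A, ∃ J : Set ℕ, J.Infinite ∧ ∀ i, Null (fun n => d n (t i)) J := by
    intro t
    obtain ⟨r, hr, hr'⟩ := extraction_forall_of_frequently
      (P := fun k n => ∀ x ∈ t '' {i | i ≤ k}, |(g n).1 x - f.1 x| < 1 / ((k : ℝ) + 1)) (by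
        intro k
        rw [frequently_atTop]
        intro N
        obtain ⟨n, hn, hn'⟩ := hfreq (t '' {i | i ≤ k}) ((finite_le_nat k).image t)
          (1 / ((k : ℝ) + 1)) (by positivity) N
        exact ⟨n, hn, hn'⟩)
    refine ⟨range r, infinite_range_of_injective hr.injective, fun i ε hε => ?_⟩
    obtain ⟨k, hk⟩ := exists_nat_one_div_lt hε
    refine ⟨r (max i k), ?_⟩
    rintro _ ⟨l, rfl⟩ hl
    have hl' : max i k ≤ l := hr.le_iff_le.1 hl
    refine (hr' l (t i) ⟨i, (le_max_left _ _).trans hl', rfl⟩).trans_le ?_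
    refine le_trans ?_ hk.le
    apply one_div_le_one_div_of_le (by positivity)
    have : (k : ℝ) ≤ l := by exact_mod_cast (le_max_right i k).trans hl'
    linarith
  -- a subsequence along which all `d n x` are null gives the claim
  have hfin : ∀ J : Set ℕ, J.Infinite → (∀ x, Null (fun n => d n x) J) →
      ∃ u : ℕ → Cp (Sp A), (∀ n, u n ∈ P) ∧ Tendsto u atTop (𝓝 f) := by
    intro J hJ hnull
    refine ⟨fun k => g (Nat.nth (· ∈ J) k), fun k => hgP _, ?_⟩
    rw [Cp.tendsto_iff]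
    intro x
    rw [Metric.tendsto_atTop]
    intro ε hε
    obtain ⟨N, hN⟩ := hnull x ε hε
    refine ⟨N, fun k hk => ?_⟩
    rw [Real.dist_eq]
    refine hN _ (Nat.nth_mem_of_infinite hJ k) (hk.trans ?_)
    exact (Nat.nth_strictMono hJ).le_apply
  rcases ht φ hφc B hBA hBc ψ with h | h | h
  · -- first case
    obtain ⟨J, hJ, h1, h2, h3⟩ := h
    refine hfin J hJ fun x => ?_
    rcases eq_fin_or x with ⟨s, rfl⟩ | hx
    · exact h1 s
    · by_cases hxB : x.1 ∈ B
      · have := h2 x.1 hxB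
        simpa only [hψ _ x hx] using this
      · intro ε hε
        obtain ⟨N, hN⟩ := h3 x.1 ⟨hx, hxB⟩ (ε / 2) (half_pos hε)
        refine ⟨N, fun n hn hNn => ?_⟩
        obtain ⟨j₀, hj₀⟩ := hN n hn hNn
        have h4 : |d n x| ≤ ε / 2 := by
          refine le_of_tendsto (hlim n x hx hxB).abs ?_
          filter_upwards [eventually_ge_atTop j₀] with j hj
          exact hj₀ j hj
        linarith
  · -- second case
    exfalso
    obtain ⟨s, ε, hε, Y, hY, J, hJ, hs, hYε⟩ := h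
    have hx : ∀ k, ∃ x : Sp A, x.1 = Y k := fun k => ⟨⟨Y k, Or.inr (hY k).1.1⟩, rfl⟩
    choose x hx using hx
    -- the absolute values at `x k`
    have h4 : ∀ k, ∃ N, ∀ n ∈ J, N ≤ n → ε ≤ |d n (x k)| := by
      intro k
      obtain ⟨N, hN⟩ := hYε k
      refine ⟨N, fun n hn hNn => ?_⟩
      obtain ⟨j₀, hj₀⟩ := hN n hn hNn
      have h5 := hlim n (x k) (by rw [hx]; exact (hY k).1.1) (by rw [hx]; exact (hY k).1.2)
      refine ge_of_tendsto h5.abs ?_
      filter_upwards [eventually_ge_atTop j₀] with j hj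
      rw [hx]
      exact hj₀ j hj
    have hNB : (atTop ⊓ 𝓟 J : Filter ℕ).NeBot := by
      rw [← frequently_mem_iff_neBot]
      exact Nat.frequently_atTop_iff_infinite.2 hJ
    let U : Ultrafilter ℕ := Ultrafilter.of (atTop ⊓ 𝓟 J)
    have hU : (U : Filter ℕ) ≤ atTop ⊓ 𝓟 J := Ultrafilter.of_le _
    obtain ⟨h, hhM, hh⟩ := hM.ultrafilter_le_nhds (U.map g) (by
      rw [Ultrafilter.coe_map]
      exact tendsto_principal.2 (Eventually.of_forall fun n => hPM (hgP n)))
    have hht : Tendsto g U (𝓝 h) := hh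
    rw [Cp.tendsto_iff] at hht
    have hUJ : ∀ N, ∀ᶠ n in (U : Filter ℕ), n ∈ J ∧ N ≤ n := by
      intro N
      have h5 : ∀ᶠ n in (atTop ⊓ 𝓟 J : Filter ℕ), n ∈ J ∧ N ≤ n := by
        refine Eventually.and ?_ ?_
        · exact mem_inf_of_right (mem_principal_self J)
        · exact mem_inf_of_left (eventually_ge_atTop N)
      exact hU h5
    have hhs : h.1 (fin s) - f.1 (fin s) = 0 := by
      refine tendsto_nhds_unique ((hht (fin s)).sub_const _) ?_
      rw [Metric.tendsto_nhds]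
      intro δ hδ
      obtain ⟨N, hN⟩ := hs δ hδ
      filter_upwards [hUJ N] with n hn
      rw [Real.dist_0_eq_abs]
      exact hN n hn.1 hn.2
    have hhx : ∀ k, ε ≤ |h.1 (x k) - f.1 (x k)| := by
      intro k
      refine ge_of_tendsto (((hht (x k)).sub_const (f.1 (x k))).abs) ?_
      obtain ⟨N, hN⟩ := h4 k
      filter_upwards [hUJ N] with n hn
      exact hN n hn.1 hn.2
    obtain ⟨l, hl⟩ := exists_nb_sub_lt hinf (h.2.sub f.2) s hε
    have h6 := hl (x l) (by
      intro i hi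
      rw [hx]
      exact (hY l).2 i hi)
    simp only [Pi.sub_apply] at h6
    rw [hhs, sub_zero] at h6
    exact absurd (hhx l) (not_le.2 h6)
  · -- third case
    exfalso
    obtain ⟨B', hB'A, hB'c, hno⟩ := h
    -- enumerate the points
    have hTc : (range (fin : Finset ℕ → Sp A) ∪ {x : Sp A | x.1 ∈ B ∪ B'}).Countable := by
      refine (countable_range _).union ?_
      exact (hBc.union hB'c).preimage Subtype.val_injective
    obtain ⟨t, ht'⟩ := hTc.exists_eq_range ⟨fin ∅, Or.inl ⟨∅, rfl⟩⟩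
    obtain ⟨J, hJ, hnull⟩ := hdiag t
    have hnull' : ∀ x ∈ (range (fin : Finset ℕ → Sp A) ∪ {x : Sp A | x.1 ∈ B ∪ B'}),
        Null (fun n => d n x) J := by
      intro x hx
      rw [ht'] at hx
      obtain ⟨i, rfl⟩ := hx
      exact hnull i
    refine hno ⟨J, hJ, fun s => hnull' _ (Or.inl ⟨s, rfl⟩), fun Y hY => ?_, fun Y hY => ?_⟩
    · have h5 := hnull' ⟨Y, Or.inr (hBA hY)⟩ (Or.inr (Or.inl hY))
      have h6 : (fun n => ψ n Y) = fun n => d n ⟨Y, Or.inr (hBA hY)⟩ := by
        funext n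
        exact hψ n ⟨Y, Or.inr (hBA hY)⟩ (hBA hY)
      rw [h6]
      exact h5
    · intro ε hε
      obtain ⟨N, hN⟩ := hnull' ⟨Y, Or.inr (hB'A hY.1)⟩ (Or.inr (Or.inr hY.1)) ε hε
      refine ⟨N, fun n hn hNn => ?_⟩
      have h7 := (hlim n ⟨Y, Or.inr (hB'A hY.1)⟩ (hB'A hY.1) hY.2).abs.eventually
        (gt_mem_nhds (hN n hn hNn))
      obtain ⟨j₀, hj₀⟩ := eventually_atTop.1 h7
      exact ⟨j₀, fun j hj => (hj₀ j hj).le⟩

end Sp

/-- `Sp A` is a Grothendieck space. -/
theorem isGrothendieck_Sp {A : Set (Set ℕ)} (hinf : ∀ Y ∈ A, Y.Infinite) (hc : Conc A)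
    (ht : Task A) : IsGrothendieck (Sp A) := by
  have := Sp.firstCountable hinf
  exact isGrothendieck_of_FU (Sp.exists_seq_tendsto hinf hc ht)

end Pool.Agent.H44G
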