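import Mathlib
import Pool.Agent.Lib.H44.Groth.TDefs

/-!
# MP_9ba03c_gt, chunk T1 : the compact sets `K i` and the failure of Fréchet–Urysohn

Paper proof.  For `n : ℕ` let `e n ∈ C(Sp A)` be `x ↦ [n ∈ x]` (continuous: coordinate `inl n` of
`emb`), for `Y ∈ A` let `δ Y` be `x ↦ [x = Y]` (continuous: coordinate `inr Y`).
`K A = {e n} ∪ {δ Y} ∪ {0}` is compact in `C_p(Sp A)`: take an ultrafilter on it.  If it contains a
finite set it is principal.  Otherwise let `P` be the set of the points `x` with `f x = 1` for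
almost all `f`; no finite set is in `P` (only finitely many `f ∈ K A` are nonzero there) and two
different members of `A` cannot both be in `P` (almost disjointness); so the limit is `0` or
some `δ Y`.
`K (A false) × K (A true)` is not FU: `(0,0)` is in the closure of `{(e n, e n)}`: use the limit
along `k → ∞` of the cofinite filters on `Y k`, where the `Y k` are different members of the
families.
If `(e (u k), e (u k)) → (0,0)` then `u k → ∞` (evaluate at the finite set `{0,…,N}`), so `range u` is
infinite, by `mad` some `Y ∈ A i` has `Y ∩ range u` infinite and `e (u k) Y = 1` for infinitely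
many `k`, a contradiction.
-/

namespace Pool.Agent.H44G

open Set Filter Topology

section KDefs

variable {A : Set (Set ℕ)}

/-- evaluation of membership of `n` -/
noncomputable def eF (A : Set (Set ℕ)) (n : ℕ) : Cp (Sp A) :=
  ⟨fun x => cond (Sp.emb x (.inl n)) 1 0,
    ((continuous_of_discreteTopology (f := fun b : Bool => (cond b (1 : ℝ) 0 : ℝ))).comp
      (continuous_apply _)).comp Sp.isEmbedding_emb.continuous⟩

/-- indicator of a point of `A` -/
noncomputable def dF (A : Set (Set ℕ)) (Y : A) : Cp (Sp A) :=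
  ⟨fun x => cond (Sp.emb x (.inr Y)) 1 0,
    ((continuous_of_discreteTopology (f := fun b : Bool => (cond b (1 : ℝ) 0 : ℝ))).comp
      (continuous_apply _)).comp Sp.isEmbedding_emb.continuous⟩

/-- the zero function -/
noncomputable def zF (A : Set (Set ℕ)) : Cp (Sp A) := ⟨fun _ => 0, continuous_const⟩

theorem eF_mem {n : ℕ} {x : Sp A} (h : n ∈ x.1) : (eF A n).1 x = 1 := by
  simp [eF, Sp.emb, h]

theorem eF_not_mem {n : ℕ} {x : Sp A} (h : n ∉ x.1) : (eF A n).1 x = 0 := by
  simp [eF, Sp.emb, h]

theorem dF_eq {Y : A} {x : Sp A} (h : x.1 = Y.1) : (dF A Y).1 x = 1 := by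
  simp [dF, Sp.emb, h]

theorem dF_ne {Y : A} {x : Sp A} (h : x.1 ≠ Y.1) : (dF A Y).1 x = 0 := by
  simp [dF, Sp.emb, h]

/-- the compact set -/
def KS (A : Set (Set ℕ)) : Set (Cp (Sp A)) := range (eF A) ∪ range (dF A) ∪ {zF A}

theorem KS_val {f : Cp (Sp A)} (hf : f ∈ KS A) (x : Sp A) : f.1 x = 1 ∨ f.1 x = 0 := by
  rcases hf with (⟨n, rfl⟩ | ⟨Y, rfl⟩) | rfl
  · by_cases h : n ∈ x.1
    · exact .inl (eF_mem h)
    · exact .inr (eF_not_mem h)
  · by_cases h : x.1 = Y.1
    · exact .inl (dF_eq h)
    · exact .inr (dF_ne h)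
  · exact .inr rfl

theorem le_nhds_of {U : Filter (Cp (Sp A))} {g : Cp (Sp A)}
    (h : ∀ x, ∀ᶠ f in U, f.1 x = g.1 x) : U ≤ 𝓝 g := by
  have : Tendsto (fun f : Cp (Sp A) => f) U (𝓝 g) := by
    rw [tendsto_subtype_rng, tendsto_pi_nhds]
    intro x
    exact tendsto_const_nhds.congr' ((h x).mono fun f hf => hf.symm)
  exact this

theorem isCompact_KS (hinf : ∀ Y ∈ A, Y.Infinite)
    (had : ∀ Y ∈ A, ∀ Y' ∈ A, Y ≠ Y' → (Y ∩ Y').Finite) : IsCompact (KS A) := by
  rw [isCompact_iff_ultrafilter_le_nhds]
  intro U hU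
  have hK : KS A ∈ U := by simpa using hU
  by_cases hfin : ∃ T : Set (Cp (Sp A)), T.Finite ∧ T ∈ U
  · obtain ⟨T, hT, hTU⟩ := hfin
    obtain ⟨f, hfT, hf⟩ := Ultrafilter.eq_pure_of_finite_mem hT hTU
    refine ⟨f, ?_, ?_⟩
    · rw [hf] at hK
      exact hK
    · rw [hf]
      exact pure_le_nhds f
  · push Not at hfin
    by_cases hP : ∃ x0 : Sp A, ∀ᶠ f in (U : Filter (Cp (Sp A))), f.1 x0 = 1
    · obtain ⟨x0, hx0⟩ := hP
      have hx0A : x0.1 ∈ A := by
        rcases x0.2 with hf | hA
        · exfalso
          refine hfin ((eF A) '' x0.1) (hf.image _) ?_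
          filter_upwards [hK, hx0] with f hfK hf1
          rcases hfK with (⟨n, rfl⟩ | ⟨Y, rfl⟩) | rfl
          · by_cases h : n ∈ x0.1
            · exact ⟨n, h, rfl⟩
            · rw [eF_not_mem h] at hf1
              norm_num at hf1
          · by_cases h : x0.1 = Y.1
            · exact absurd hf (h ▸ hinf Y.1 Y.2)
            · rw [dF_ne h] at hf1
              norm_num at hf1
          · norm_num [zF] at hf1
        · exact hA
      refine ⟨dF A ⟨x0.1, hx0A⟩, .inl (.inr ⟨_, rfl⟩), le_nhds_of fun x => ?_⟩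
      by_cases hx : x.1 = x0.1
      · rw [dF_eq (by exact hx)]
        have : x = x0 := Subtype.ext hx
        rw [this]
        exact hx0
      · rw [dF_ne (by exact hx)]
        by_contra hcon
        have hx1 : ∀ᶠ f in (U : Filter (Cp (Sp A))), f.1 x = 1 := by
          have := (Ultrafilter.eventually_not (f := U)).2 hcon
          filter_upwards [hK, this] with f hfK hf0
          rcases KS_val hfK x with h | h
          · exact h
          · exact absurd h hf0
        rcases x.2 with hf | hA
        · refine hfin ((eF A) '' x.1) (hf.image _) ?_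
          filter_upwards [hK, hx1] with f hfK hf1
          rcases hfK with (⟨n, rfl⟩ | ⟨Y, rfl⟩) | rfl
          · by_cases h : n ∈ x.1
            · exact ⟨n, h, rfl⟩
            · rw [eF_not_mem h] at hf1
              norm_num at hf1
          · by_cases h : x.1 = Y.1
            · exact absurd hf (h ▸ hinf Y.1 Y.2)
            · rw [dF_ne h] at hf1
              norm_num at hf1
          · norm_num [zF] at hf1
        · refine hfin ((eF A) '' (x.1 ∩ x0.1)) ((had _ hA _ hx0A hx).image _) ?_
          filter_upwards [hK, hx0, hx1] with f hfK hf0 hf1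
          rcases hfK with (⟨n, rfl⟩ | ⟨Y, rfl⟩) | rfl
          · by_cases h : n ∈ x.1
            · by_cases h0 : n ∈ x0.1
              · exact ⟨n, ⟨h, h0⟩, rfl⟩
              · rw [eF_not_mem h0] at hf0
                norm_num at hf0
            · rw [eF_not_mem h] at hf1
              norm_num at hf1
          · by_cases h : x.1 = Y.1
            · rw [dF_ne (x := x0) (fun h' => hx (h.trans h'.symm))] at hf0
              norm_num at hf0
            · rw [dF_ne h] at hf1
              norm_num at hf1
          · norm_num [zF] at hf1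
    · push Not at hP
      refine ⟨zF A, .inr rfl, le_nhds_of fun x => ?_⟩
      filter_upwards [hK, hP x] with f hfK hf0
      rcases KS_val hfK x with h | h
      · exact absurd h hf0
      · exact h

end KDefs

theorem exists_compact_not_FU {A : Bool → Set (Set ℕ)} (h : Fam A) :
    ∃ (K : Set (Cp (Sp (A false)))) (L : Set (Cp (Sp (A true)))), IsCompact K ∧ IsCompact L ∧
      ¬ FrechetUrysohnSpace (K × L) := by
  refine ⟨KS (A false), KS (A true),
    isCompact_KS (h.inf false) (h.ad false false), isCompact_KS (h.inf true) (h.ad true true), ?_⟩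
  intro hFU
  let p : ℕ → KS (A false) × KS (A true) := fun n =>
    (⟨eF (A false) n, .inl (.inl ⟨n, rfl⟩)⟩, ⟨eF (A true) n, .inl (.inl ⟨n, rfl⟩)⟩)
  let z : KS (A false) × KS (A true) := (⟨zF (A false), .inr rfl⟩, ⟨zF (A true), .inr rfl⟩)
  have hcl : z ∈ closure (range p) := by
    -- the filter
    let Y : ℕ → Set ℕ := fun k => (h.big.natEmbedding _ k : Set ℕ)
    have hY : ∀ k, ∃ i, Y k ∈ A i := fun k => by
      have h2 : Y k ∈ ⋃ i, A i := (h.big.natEmbedding _ k).2
      rw [mem_iUnion] at h2
      exact h2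
    have hYinj : Function.Injective Y := fun a b hab =>
      (h.big.natEmbedding _).injective (Subtype.ext hab)
    have hkey : ∀ x : Set ℕ, (x.Finite ∨ ∃ i, x ∈ A i) →
        ∀ᶠ n in (atTop : Filter ℕ).bind (fun k => cofinite ⊓ 𝓟 (Y k)), n ∉ x := by
      intro x hx
      have hxk : ∀ᶠ k in atTop, (Y k ∩ x).Finite := by
        rcases hx with hx | ⟨i, hx⟩
        · exact Eventually.of_forall fun k => hx.subset inter_subset_right
        · by_cases hex : ∃ k, Y k = x
          · obtain ⟨k, rfl⟩ := hex
            filter_upwards [eventually_gt_atTop k] with j hj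
            obtain ⟨i', hi'⟩ := hY j
            exact h.ad i' i _ hi' _ hx fun hjk => (hYinj hjk ▸ hj).false
          · push Not at hex
            refine Eventually.of_forall fun k => ?_
            obtain ⟨i', hi'⟩ := hY k
            exact h.ad i' i _ hi' _ hx (hex k)
      rw [Filter.Eventually, mem_bind']
      filter_upwards [hxk] with k hk
      change ∀ᶠ n in cofinite ⊓ 𝓟 (Y k), n ∉ x
      rw [eventually_inf_principal, eventually_cofinite]
      refine hk.subset fun n hn => ?_
      simp only [mem_ofPred_eq, not_forall, not_not] at hn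
      obtain ⟨h1, h2⟩ := hn
      exact ⟨h1, h2⟩
    have hF : ((atTop : Filter ℕ).bind (fun k => cofinite ⊓ 𝓟 (Y k))).NeBot := by
      refine neBot_iff.2 fun hbot => ?_
      have hemp := empty_mem_iff_bot.2 hbot
      rw [mem_bind'] at hemp
      obtain ⟨k, hk⟩ := (show ∀ᶠ k in atTop, ∅ ∈ cofinite ⊓ 𝓟 (Y k) from hemp).exists
      obtain ⟨i, hi⟩ := hY k
      rw [mem_inf_principal] at hk
      have := h.inf i _ hi
      apply this
      rw [mem_cofinite] at hk
      refine hk.subset fun n hn => ?_
      simp [hn]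
    have hlim : Tendsto p ((atTop : Filter ℕ).bind (fun k => cofinite ⊓ 𝓟 (Y k))) (𝓝 z) := by
      rw [nhds_prod_eq]
      refine Tendsto.prodMk ?_ ?_
      · rw [tendsto_subtype_rng, tendsto_subtype_rng, tendsto_pi_nhds]
        intro x
        refine tendsto_const_nhds.congr' ?_
        filter_upwards [hkey x.1 (x.2.imp id fun hx => ⟨false, hx⟩)] with n hn
        exact (eF_not_mem hn).symm
      · rw [tendsto_subtype_rng, tendsto_subtype_rng, tendsto_pi_nhds]
        intro x
        refine tendsto_const_nhds.congr' ?_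
        filter_upwards [hkey x.1 (x.2.imp id fun hx => ⟨true, hx⟩)] with n hn
        exact (eF_not_mem hn).symm
    exact mem_closure_of_tendsto hlim (Eventually.of_forall fun n => ⟨n, rfl⟩)
  obtain ⟨x, hx, hlim⟩ := mem_closure_iff_seq_limit.1 hcl
  choose u hu using hx
  have hfalse : ∀ y : Sp (A false), ∀ᶠ k in atTop, u k ∉ y.1 := by
    intro y
    have h1 : Tendsto (fun k => ((x k).1.1 : Cp (Sp (A false))).1 y) atTop (𝓝 0) := by
      have h2 : Tendsto (fun k => (x k).1) atTop (𝓝 z.1) := (continuous_fst.tendsto z).comp hlim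
      rw [tendsto_subtype_rng, tendsto_subtype_rng, tendsto_pi_nhds] at h2
      exact h2 y
    have h3 : ∀ᶠ k in atTop, ((x k).1.1 : Cp (Sp (A false))).1 y < 1 :=
      h1.eventually_lt_const zero_lt_one
    filter_upwards [h3] with k hk hmem
    rw [← hu k] at hk
    change (eF (A false) (u k)).1 y < 1 at hk
    rw [eF_mem hmem] at hk
    exact lt_irrefl _ hk
  have htrue : ∀ y : Sp (A true), ∀ᶠ k in atTop, u k ∉ y.1 := by
    intro y
    have h1 : Tendsto (fun k => ((x k).2.1 : Cp (Sp (A true))).1 y) atTop (𝓝 0) := by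
      have h2 : Tendsto (fun k => (x k).2) atTop (𝓝 z.2) := (continuous_snd.tendsto z).comp hlim
      rw [tendsto_subtype_rng, tendsto_subtype_rng, tendsto_pi_nhds] at h2
      exact h2 y
    have h3 : ∀ᶠ k in atTop, ((x k).2.1 : Cp (Sp (A true))).1 y < 1 :=
      h1.eventually_lt_const zero_lt_one
    filter_upwards [h3] with k hk hmem
    rw [← hu k] at hk
    change (eF (A true) (u k)).1 y < 1 at hk
    rw [eF_mem hmem] at hk
    exact lt_irrefl _ hk
  have hinf : (range u).Infinite := by
    intro hf
    obtain ⟨k, hk⟩ := (hfalse ⟨range u, .inl hf⟩).exists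
    exact hk ⟨k, rfl⟩
  obtain ⟨i, Y, hYA, hYinf⟩ := h.mad _ hinf
  have hev : ∀ᶠ k in atTop, u k ∉ Y := by
    cases i with
    | false => exact hfalse ⟨Y, .inr hYA⟩
    | true => exact htrue ⟨Y, .inr hYA⟩
  obtain ⟨N, hN⟩ := eventually_atTop.1 hev
  refine hYinf (((finite_lt_nat N).image u).subset ?_)
  rintro _ ⟨hnY, ⟨k, rfl⟩⟩
  refine ⟨k, ?_, rfl⟩
  by_contra hk
  exact hN k (not_lt.1 hk) hnY

end Pool.Agent.H44G
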